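import Pool.Agent.Helper77.SD.St

/-! # Project SD: assembly of the core theorem -/

set_option autoImplicit false

namespace Pool.Agent.Helper77.SD

open MeasureTheory Metric Set
open scoped Gradient RealInnerProductSpace ENNReal

theorem hCORE (hKEY : StKEY) (hNUM : StNUM) (hMEM : StMEM) (hSOL : StSOL) (hHIL : StHIL) (hCOR : StCOR) : StCORE := by
  intro d l η B c lam Λ c0 c1 P M hl hM hm hW
  have hs : 0 < ⟪l, η⟫ := by
    have hη : η ≠ 0 := by
      rintro rfl; apply hl; rw [← hm.eta 0]; simp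
    have h1 := hm.ell 0 η
    rw [hm.eta 0] at h1
    have h2 : 0 < ‖η‖ := norm_pos_iff.2 hη
    have : 0 < lam * ‖η‖ ^ 2 := mul_pos hm.lam_pos (by positivity)
    linarith
  choose W K hW1 hW2 hW3 using hW
  have hΛ : 0 ≤ Λ := (norm_nonneg _).trans (hm.bddB 0)
  have hc0 := hm.c0_pos
  have hP := hm.P_nonneg
  obtain ⟨k, hkdef⟩ : ∃ k : ℝ → ℝ, ∀ ε (h : 0 < ε), k ε = K ε h / 2 + Λ * P ^ 2 / 4 + M / c0 ∧ True :=
    ⟨fun ε => if h : 0 < ε then K ε h / 2 + Λ * P ^ 2 / 4 + M / c0 else 0, fun ε h => ⟨by simp [h], trivial⟩⟩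
  obtain ⟨k, hk0, hk⟩ : ∃ k : ℝ → ℝ, (∀ ε, 0 ≤ k ε) ∧ ∀ ε (h : 0 < ε), k ε = K ε h / 2 + Λ * P ^ 2 / 4 + M / c0 := by
    refine ⟨fun ε => if h : 0 < ε then K ε h / 2 + Λ * P ^ 2 / 4 + M / c0 else 0, fun ε => ?_, fun ε h => by simp [h]⟩
    by_cases h : 0 < ε
    · simp only [h, dite_true]
      have := (abs_nonneg _).trans (hW3 ε h 0)
      positivity
    · simp [h]
  clear hkdef
  obtain ⟨ε, τ, δ', hε, hτ, hδ', hδ8, hnum⟩ := hNUM lam ⟪l, η⟫ ‖η‖ P k hm.lam_pos hs (norm_nonneg _) hP hk0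
  obtain ⟨κ, hκ⟩ : ∃ κ : ℝ, κ = 3 / ⟪l, η⟫ := ⟨_, rfl⟩
  have hκ0 : 0 < κ := by rw [hκ]; positivity
  have hκs : κ * ⟪l, η⟫ = 3 := by rw [hκ]; field_simp
  refine ⟨c0 * δ', τ + κ, mul_pos hc0 hδ', by linarith, ?_⟩
  intro A V hc u G hu hdec
  have hδ2 : c0 * δ' ≤ c0 * lam / 2 := by
    have := hm.lam_pos
    nlinarith
  have hτ0 : 0 ≤ τ := by linarith
  -- properties of the class of solutions
  have hAb : ∀ x, ‖A x‖ ≤ c1 * Λ + c0 * δ' := fun x => by
    have h1 : A x = (A x - c x • B x) + c x • B x := by abel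
    rw [h1]
    refine (norm_add_le _ _).trans ?_
    rw [norm_smul, Real.norm_eq_abs, abs_of_pos (lt_of_lt_of_le hc0 (hm.lo x))]
    have h2 : c x * ‖B x‖ ≤ c1 * Λ := mul_le_mul (hm.hi x) (hm.bddB x) (norm_nonneg _)
      ((lt_of_lt_of_le hc0 (hm.lo x)).le.trans (hm.hi x))
    linarith [hc.close x]
  have hsol := fun u u' G G' h h' => hSOL d l A V _ M hc.measA hc.measV hAb hc.bddV hc.perA hc.perV u u' G G' h h'
  have hH1 : ∀ u G, Sol A V u G → L2 (fun x => Real.exp ((τ + κ) * |⟪η, x⟫|) * u x) →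
      InH1 (tf c τ η u) (tF c τ η u G) := fun u G h h' =>
    hMEM d l η B c lam Λ c0 c1 P (c0 * δ') M τ κ A V u G hm hc hδ2 hτ0 hκ0.le h h'
  have hest : ∀ u G, Sol A V u G → L2 (fun x => Real.exp ((τ + κ) * |⟪η, x⟫|) * u x) →
      25 * nrm (fun x => tf c τ η u (x + l) - tf c τ η u x) ^ 2 ≤ nrm (tf c τ η u) ^ 2 := by
    intro u G h h'
    obtain ⟨h1, h2⟩ := hKEY d l η B c lam Λ c0 c1 P (c0 * δ') M τ A V u G (W ε hε) ε (K ε hε) hm hc h (hH1 u G h h')
      (by linarith) (hW1 ε hε) (hW2 ε hε) (hW3 ε hε) _ _ _ _ rfl rfl rfl rfl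
    have hδc : c0 * δ' / c0 = δ' := by field_simp
    rw [hδc, ← hk ε hε] at h1 h2
    exact hnum _ _ _ _ (nrm_nonneg _) (nrm_nonneg _) rfl h1 h2
  -- shift of the transform
  have hshift : ∀ (u : E d → ℝ) x, tf c τ η u (x + l) = tf c τ η (fun y => Real.exp (τ * ⟪η, l⟫) * u (y + l)) x := by
    intro u x
    simp only [tf, wt, hm.per x, inner_add_right, mul_add, Real.exp_add]
    ring
  have hdshift : ∀ (u : E d → ℝ), L2 (fun x => Real.exp ((τ + κ) * |⟪η, x⟫|) * u x) →
      L2 (fun x => Real.exp ((τ + κ) * |⟪η, x⟫|) * u (x + l)) := by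
    intro u h
    have h1 := l2_shift h l
    refine l2_of_le (K := Real.exp ((τ + κ) * |⟪η, l⟫|)) h1 ?_ fun x => ?_
    · have h2 : AEStronglyMeasurable (fun x => u (x + l)) volume := by
        have h3 : AEStronglyMeasurable (fun x => Real.exp (-((τ + κ) * |⟪η, x + l⟫|)) *
            (Real.exp ((τ + κ) * |⟪η, x + l⟫|) * u (x + l))) volume := by
          refine AEStronglyMeasurable.mul ?_ h1.1
          exact (by fun_prop : Continuous fun x : E d => Real.exp (-((τ + κ) * |⟪η, x + l⟫|))).aestronglyMeasurable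
        refine h3.congr (Filter.Eventually.of_forall fun x => ?_)
        simp only [← mul_assoc, ← Real.exp_add]
        simp
      refine AEStronglyMeasurable.mul ?_ h2
      exact (by fun_prop : Continuous fun x : E d => Real.exp (((τ + κ) * |⟪η, x⟫|))).aestronglyMeasurable
    · rw [norm_mul, norm_mul, ← mul_assoc]
      refine mul_le_mul_of_nonneg_right ?_ (norm_nonneg _)
      rw [Real.norm_eq_abs, Real.norm_eq_abs, Real.abs_exp, Real.abs_exp, ← Real.exp_add]
      apply Real.exp_le_exp.2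
      rw [← mul_add]
      refine mul_le_mul_of_nonneg_left ?_ (by linarith)
      have : ⟪η, x⟫ = ⟪η, x + l⟫ - ⟪η, l⟫ := by rw [inner_add_right]; ring
      rw [this]
      calc |⟪η, x + l⟫ - ⟪η, l⟫| ≤ |⟪η, x + l⟫| + |⟪η, l⟫| := abs_sub _ _
        _ = _ := by ring
  -- the abstract lemma
  let mp : MeasurePreserving (fun x : E d => x + l) volume volume := measurePreserving_add_right volume l
  let T : Lp ℝ 2 (volume : Measure (E d)) →ₗ[ℝ] Lp ℝ 2 (volume : Measure (E d)) := Lp.compMeasurePreservingₗ ℝ _ mp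
  have hT : ∀ g, (T g : E d → ℝ) =ᵐ[volume] fun x => g (x + l) := fun g => Lp.coeFn_compMeasurePreserving g mp
  let 𝒱 : Submodule ℝ (Lp ℝ 2 (volume : Measure (E d))) :=
    { carrier := {g | ∃ (u : E d → ℝ) (G : E d → E d), Sol A V u G ∧
        L2 (fun x => Real.exp ((τ + κ) * |⟪η, x⟫|) * u x) ∧ (g : E d → ℝ) =ᵐ[volume] tf c τ η u}
      add_mem' := by
        rintro g g' ⟨u, G, h1, h2, h3⟩ ⟨u', G', h1', h2', h3'⟩
        refine ⟨_, _, (hsol u u' G G' h1 h1').1 1 1, ?_, ?_⟩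
        · convert h2.add h2' using 2
          simp only [Pi.add_apply]; ring
        · filter_upwards [Lp.coeFn_add g g', h3, h3'] with x e1 e2 e3
          rw [e1, Pi.add_apply, e2, e3]
          simp only [tf]; ring
      zero_mem' := by
        refine ⟨_, _, (hsol u u G G hu hu).1 0 0, ?_, ?_⟩
        · simp
        · filter_upwards [Lp.coeFn_zero ℝ 2 (volume : Measure (E d))] with x e1
          rw [e1]; simp [tf]
      smul_mem' := by
        rintro a g ⟨u, G, h1, h2, h3⟩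
        refine ⟨_, _, (hsol u u G G h1 h1).1 a 0, ?_, ?_⟩
        · convert h2.const_mul a using 2
          ring
        · filter_upwards [Lp.coeFn_smul a g, h3] with x e1 e2
          rw [e1, Pi.smul_apply, e2]
          simp only [tf, smul_eq_mul]; ring }
  have hmem : ∀ g, g ∈ 𝒱 ↔ ∃ (u : E d → ℝ) (G : E d → E d), Sol A V u G ∧
        L2 (fun x => Real.exp ((τ + κ) * |⟪η, x⟫|) * u x) ∧ (g : E d → ℝ) =ᵐ[volume] tf c τ η u := fun g => Iff.rfl
  have hqmp : Measure.QuasiMeasurePreserving (fun x : E d => x + l) volume volume := mp.quasiMeasurePreserving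
  have key := hHIL (Lp ℝ 2 (volume : Measure (E d))) T 𝒱 (Real.exp (-(κ * ⟪l, η⟫)))
    (fun x => Lp.norm_compMeasurePreserving x mp) ?_ ?_ (Real.exp_pos _).le ?_ ?_
  · -- conclusion
    have hH := hH1 u G hu hdec
    have h0 := key (hH.l2.toLp _) ⟨u, G, hu, hdec, hH.l2.coeFn_toLp⟩
    have h1 : tf c τ η u =ᵐ[volume] 0 := by
      have h2 := hH.l2.coeFn_toLp
      rw [h0] at h2
      filter_upwards [h2, Lp.coeFn_zero ℝ 2 (volume : Measure (E d))] with x e1 e2
      rw [← e1, e2]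
    filter_upwards [h1] with x e
    simp only [tf, wt, Pi.zero_apply] at e ⊢
    have h3 : √(c x) * Real.exp (τ * ⟪η, x⟫) ≠ 0 :=
      (mul_pos (Real.sqrt_pos.2 (lt_of_lt_of_le hc0 (hm.lo x))) (Real.exp_pos _)).ne'
    rcases mul_eq_zero.1 e with h | h
    · exact absurd h h3
    · exact h
  · -- invariance
    rintro g ⟨u, G, h1, h2, h3⟩
    have h4 := (hsol _ _ _ _ (hsol u u G G h1 h1).2 (hsol u u G G h1 h1).2).1 (Real.exp (τ * ⟪η, l⟫)) 0
    refine ⟨_, _, h4, ?_, ?_⟩
    · convert (hdshift u h2).const_mul (Real.exp (τ * ⟪η, l⟫)) using 2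
      ring
    · filter_upwards [hT g, hqmp.ae_eq_comp h3] with x e1 e2
      rw [e1]
      simp only [Function.comp_apply] at e2
      rw [e2, hshift]
      simp only [tf]; ring
  · -- closeness to the identity
    rintro g ⟨u, G, h1, h2, h3⟩
    have h4 := hest u G h1 h2
    have e1 : nrm (tf c τ η u) = ‖g‖ := by
      rw [nrm_eq_norm_toLp (hH1 u G h1 h2).l2]
      congr 1
      apply Lp.ext
      exact ((hH1 u G h1 h2).l2.coeFn_toLp).trans h3.symm
    have h5 : L2 (fun x => tf c τ η u (x + l) - tf c τ η u x) := (l2_shift (hH1 u G h1 h2).l2 l).sub (hH1 u G h1 h2).l2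
    have e2 : nrm (fun x => tf c τ η u (x + l) - tf c τ η u x) = ‖T g - g‖ := by
      rw [nrm_eq_norm_toLp h5]
      congr 1
      apply Lp.ext
      filter_upwards [h5.coeFn_toLp, Lp.coeFn_sub (T g) g, hT g, hqmp.ae_eq_comp h3, h3] with x a1 a2 a3 a4 a5
      rw [a1, a2, Pi.sub_apply, a3, a5]
      simp only [Function.comp_apply] at a4
      rw [a4]
    rw [← e1, ← e2]
    exact h4
  · rw [hκs]
    have : Real.exp (-3) < 1 / 9 := by
      rw [Real.exp_neg, one_div]
      apply inv_strictAnti₀ (by norm_num)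
      have h1 := Real.exp_one_gt_d9
      have h2 : Real.exp 3 = Real.exp 1 ^ 3 := by rw [← Real.exp_nat_mul]; norm_num
      rw [h2]
      have h3 : (2.7 : ℝ) ^ 3 ≤ Real.exp 1 ^ 3 := pow_le_pow_left₀ (by norm_num) (by linarith) 3
      norm_num at h3 ⊢
      linarith
    linarith
  · -- decay of correlations
    rintro g ⟨u, G, h1, h2, h3⟩
    obtain ⟨K', hK'⟩ := hCOR d l η B c lam Λ c0 c1 P τ κ u hm hτ0 hκ0.le hs h2
    refine ⟨K', fun j => ?_⟩
    have hTj : ∀ j : ℕ, ((T ^ j) g : E d → ℝ) =ᵐ[volume] fun x => tf c τ η u (x + (j : ℝ) • l) := by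
      intro j
      induction j with
      | zero => simpa using h3
      | succ j ih =>
        rw [pow_succ']
        have e1 := hT ((T ^ j) g)
        have e2 := hqmp.ae_eq_comp ih
        filter_upwards [e1, e2] with x a1 a2
        simp only [Function.comp_apply] at a2
        simp only [Module.End.mul_apply]
        rw [a1, a2]
        congr 1
        push_cast
        rw [add_smul, one_smul]; abel
    have e : ⟪g, (T ^ j) g⟫ = ∫ x, tf c τ η u x * tf c τ η u (x + (j : ℝ) • l) := by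
      rw [L2.inner_def]
      apply integral_congr_ae
      filter_upwards [h3, hTj j] with x a1 a2
      rw [a1, a2]
      simp [mul_comm]
    rw [e]
    exact hK' j

end Pool.Agent.Helper77.SD
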