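import Pool.Agent.Helper77.SD.St

set_option autoImplicit false

namespace Pool.Agent.Helper77.SD

open MeasureTheory Metric Set
open scoped Gradient RealInnerProductSpace ENNReal

theorem hDIVH' (h1 : StLIN) (h2 : StDIV) : StDIVH := by
  intro d W K K' hW hWb hK f g F Γ hf hg
  have hWc : Continuous W := hW.continuous
  have hdc : Continuous (dv W) := by
    unfold dv
    have h := hW.continuous_fderiv (by norm_num)
    refine continuous_finset_sum _ fun i _ => ?_
    have h3 : Continuous fun x => fderiv ℝ W x (EuclideanSpace.single i (1 : ℝ)) := h.clm_apply continuous_const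
    exact (EuclideanSpace.proj i).continuous.comp h3
  have key : ∀ w : E d → ℝ, ContDiff ℝ 1 w → HasCompactSupport w → ∀ (g : E d → ℝ) (Γ : E d → E d), InH1 g Γ →
      (∫ x, ⟪w x • W x, Γ x⟫) + ∫ x, (⟪W x, ∇ w x⟫ + dv W x * w x) * g x = 0 := by
    intro w hw hwc
    refine h1 d (fun x => w x • W x) (fun x => ⟪W x, ∇ w x⟫ + dv W x * w x) ?_ ?_ ?_
    · exact l2_of_compact (hw.continuous.smul hWc) (hwc.smul_right)
    · refine l2_of_compact ((hWc.inner (continuous_grad hw)).add (hdc.mul hw.continuous)) ?_
      refine HasCompactSupport.add ?_ hwc.mul_left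
      refine (compact_grad hwc).mono' ?_
      intro x hx
      apply subset_tsupport
      simp only [Function.mem_support] at hx ⊢
      intro h0; apply hx; rw [h0, inner_zero_right]
    · intro w' hw' hwc'
      have h3 := h2 d W w w' hW hw hw' hwc hwc'
      have i1 : Integrable (fun x => ⟪w x • W x, ∇ w' x⟫) :=
        integrable_inner (l2_of_compact (hw.continuous.smul hWc) (hwc.smul_right)) (l2_grad hw' hwc')
      have i2 : Integrable (fun x => ⟪W x, ∇ w x⟫ * w' x) := by
        have h4 : L2 (fun x => ⟪W x, ∇ w x⟫) := by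
          refine l2_of_compact (hWc.inner (continuous_grad hw)) ?_
          refine (compact_grad hwc).mono' ?_
          intro x hx
          apply subset_tsupport
          simp only [Function.mem_support] at hx ⊢
          intro h0; apply hx; rw [h0, inner_zero_right]
        exact integrable_mul h4 (l2_of_compact hw'.continuous hwc')
      have i3 : Integrable (fun x => dv W x * (w x * w' x)) := by
        refine Continuous.integrable_of_hasCompactSupport (hdc.mul (hw.continuous.mul hw'.continuous)) ?_
        exact (hwc.mul_right).mul_left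
      have e1 : ∫ x, ⟪W x, w' x • ∇ w x + w x • ∇ w' x⟫ = (∫ x, ⟪w x • W x, ∇ w' x⟫) + ∫ x, ⟪W x, ∇ w x⟫ * w' x := by
        rw [← integral_add i1 i2]
        congr 1; ext x
        rw [inner_add_right, real_inner_smul_right, real_inner_smul_right, real_inner_smul_left]; ring
      have e2 : ∫ x, (⟪W x, ∇ w x⟫ + dv W x * w x) * w' x = (∫ x, ⟪W x, ∇ w x⟫ * w' x) + ∫ x, dv W x * (w x * w' x) := by
        rw [← integral_add i2 i3]
        congr 1; ext x; ring
      rw [e2, ← add_assoc, ← e1, h3]; ring
  have lgW : L2 (fun x => g x • W x) := by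
    refine l2_of_le (K := K') hg.l2 (hg.l2.1.smul hWc.aestronglyMeasurable) fun x => ?_
    rw [norm_smul, mul_comm]; exact mul_le_mul_of_nonneg_right (hWb x) (norm_nonneg _)
  have lWΓ : L2 (fun x => ⟪W x, Γ x⟫) := by
    refine l2_of_le (K := K') hg.l2G (hWc.aestronglyMeasurable.inner hg.l2G.1) fun x => ?_
    exact (norm_inner_le_norm _ _).trans (mul_le_mul_of_nonneg_right (hWb x) (norm_nonneg _))
  have ldg : L2 (fun x => dv W x * g x) := by
    refine l2_of_le (K := K) hg.l2 (hdc.aestronglyMeasurable.mul hg.l2.1) fun x => ?_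
    rw [norm_mul]; exact mul_le_mul_of_nonneg_right (hK x) (norm_nonneg _)
  have h5 := h1 d (fun x => g x • W x) (fun x => ⟪W x, Γ x⟫ + dv W x * g x) lgW (lWΓ.add ldg) ?_ f F hf
  · have i1 : Integrable (fun x => ⟪g x • W x, F x⟫) := integrable_inner lgW hf.l2G
    have i2 : Integrable (fun x => ⟪W x, Γ x⟫ * f x) := integrable_mul lWΓ hf.l2
    have i3 : Integrable (fun x => dv W x * (f x * g x)) := by
      refine (integrable_mul ldg hf.l2).congr (Filter.Eventually.of_forall fun x => ?_)
      simp only; ring
    have e1 : ∫ x, ⟪W x, g x • F x + f x • Γ x⟫ = (∫ x, ⟪g x • W x, F x⟫) + ∫ x, ⟪W x, Γ x⟫ * f x := by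
      rw [← integral_add i1 i2]
      congr 1; ext x
      rw [inner_add_right, real_inner_smul_right, real_inner_smul_right, real_inner_smul_left]; ring
    have e2 : ∫ x, (⟪W x, Γ x⟫ + dv W x * g x) * f x = (∫ x, ⟪W x, Γ x⟫ * f x) + ∫ x, dv W x * (f x * g x) := by
      rw [← integral_add i2 i3]
      congr 1; ext x; ring
    rw [e2, ← add_assoc, ← e1] at h5
    linarith
  · intro w hw hwc
    have h6 := key w hw hwc g Γ hg
    have h4 : L2 (fun x => ⟪W x, ∇ w x⟫) := by
      refine l2_of_compact (hWc.inner (continuous_grad hw)) ?_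
      refine (compact_grad hwc).mono' ?_
      intro x hx
      apply subset_tsupport
      simp only [Function.mem_support] at hx ⊢
      intro h0; apply hx; rw [h0, inner_zero_right]
    have lw : L2 w := l2_of_compact hw.continuous hwc
    have i1 : Integrable (fun x => ⟪w x • W x, Γ x⟫) :=
      integrable_inner (l2_of_compact (hw.continuous.smul hWc) (hwc.smul_right)) hg.l2G
    have i2 : Integrable (fun x => ⟪W x, ∇ w x⟫ * g x) := integrable_mul h4 hg.l2
    have i3 : Integrable (fun x => dv W x * w x * g x) := by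
      refine (integrable_mul ldg lw).congr (Filter.Eventually.of_forall fun x => ?_)
      simp only; ring
    have e1 : ∫ x, ⟪g x • W x, ∇ w x⟫ = ∫ x, ⟪W x, ∇ w x⟫ * g x := by
      congr 1; ext x; rw [real_inner_smul_left]; ring
    have e2 : ∫ x, (⟪W x, Γ x⟫ + dv W x * g x) * w x = (∫ x, ⟪w x • W x, Γ x⟫) + ∫ x, dv W x * w x * g x := by
      rw [← integral_add i1 i3]
      congr 1; ext x; rw [real_inner_smul_left]; ring
    have e3 : ∫ x, (⟪W x, ∇ w x⟫ + dv W x * w x) * g x = (∫ x, ⟪W x, ∇ w x⟫ * g x) + ∫ x, dv W x * w x * g x := by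
      rw [← integral_add i2 i3]
      congr 1; ext x; ring
    rw [e1, e2]
    rw [e3] at h6
    linarith

end Pool.Agent.Helper77.SD
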