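import Pool.Agent.Helper77.SD.St

set_option autoImplicit false

namespace Pool.Agent.Helper77.SD

open MeasureTheory Metric Set
open scoped Gradient RealInnerProductSpace ENNReal

theorem hHT' : StHT := by
  intro d f g F Γ hf hg
  constructor
  · intro a b
    refine ⟨(hf.l2.const_mul a).add (hg.l2.const_mul b), (hf.l2G.const_smul a).add (hg.l2G.const_smul b), ?_⟩
    intro ε hε
    have hden : 0 < |a| + |b| + 1 := by positivity
    obtain ⟨w₁, p1, p2, p3, p4⟩ := hf.app (ε / (|a| + |b| + 1)) (by positivity)
    obtain ⟨w₂, q1, q2, q3, q4⟩ := hg.app (ε / (|a| + |b| + 1)) (by positivity)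
    have hlt : (|a| + |b|) * (ε / (|a| + |b| + 1)) < ε := by
      rw [← mul_div_assoc, div_lt_iff₀ hden]; nlinarith
    have hgrad : ∀ x, ∇ (fun x => a * w₁ x + b * w₂ x) x = a • ∇ w₁ x + b • ∇ w₂ x := by
      intro x
      have d1 : DifferentiableAt ℝ w₁ x := p1.differentiable (by norm_num) x
      have d2 : DifferentiableAt ℝ w₂ x := q1.differentiable (by norm_num) x
      have h1 := ((d1.hasFDerivAt.const_mul a).add (d2.hasFDerivAt.const_mul b)).fderiv
      simp only [gradient]
      have h2 : fderiv ℝ (fun x => a * w₁ x + b * w₂ x) x = a • fderiv ℝ w₁ x + b • fderiv ℝ w₂ x := h1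
      rw [h2, map_add, map_smul, map_smul]
    refine ⟨fun x => a * w₁ x + b * w₂ x, (contDiff_const.mul p1).add (contDiff_const.mul q1),
      (p2.mul_left).add (q2.mul_left), ?_, ?_⟩
    · have l1 : L2 (fun x => w₁ x - f x) := (l2_of_compact p1.continuous p2).sub hf.l2
      have l2 : L2 (fun x => w₂ x - g x) := (l2_of_compact q1.continuous q2).sub hg.l2
      have e : nrm (fun x => a * w₁ x + b * w₂ x - (a * f x + b * g x)) ≤
          |a| * nrm (fun x => w₁ x - f x) + |b| * nrm (fun x => w₂ x - g x) := by
        have h1 := nrm_add_le (l1.const_smul a) (l2.const_smul b)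
        have h2 := nrm_smul a (fun x => w₁ x - f x)
        have h3 := nrm_smul b (fun x => w₂ x - g x)
        have h4 : (fun x => a * w₁ x + b * w₂ x - (a * f x + b * g x)) =
            fun x => (a • fun x => w₁ x - f x) x + (b • fun x => w₂ x - g x) x := by
          ext x; simp only [Pi.smul_apply, smul_eq_mul]; ring
        rw [h4]
        refine h1.trans (add_le_add (le_of_eq h2) (le_of_eq h3))
      have := mul_le_mul_of_nonneg_left p3.le (abs_nonneg a)
      have := mul_le_mul_of_nonneg_left q3.le (abs_nonneg b)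
      linarith
    · have l1 : L2 (fun x => ∇ w₁ x - F x) := (l2_grad p1 p2).sub hf.l2G
      have l2 : L2 (fun x => ∇ w₂ x - Γ x) := (l2_grad q1 q2).sub hg.l2G
      have e : nrm (fun x => ∇ (fun x => a * w₁ x + b * w₂ x) x - (a • F x + b • Γ x)) ≤
          |a| * nrm (fun x => ∇ w₁ x - F x) + |b| * nrm (fun x => ∇ w₂ x - Γ x) := by
        have h1 := nrm_add_le (l1.const_smul a) (l2.const_smul b)
        have h2 := nrm_smul a (fun x => ∇ w₁ x - F x)
        have h3 := nrm_smul b (fun x => ∇ w₂ x - Γ x)
        have h4 : (fun x => ∇ (fun x => a * w₁ x + b * w₂ x) x - (a • F x + b • Γ x)) =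
            fun x => (a • fun x => ∇ w₁ x - F x) x + (b • fun x => ∇ w₂ x - Γ x) x := by
          ext1 x; rw [hgrad]; simp only [Pi.smul_apply, smul_sub]; abel
        rw [h4]
        refine h1.trans (add_le_add (le_of_eq h2) (le_of_eq h3))
      have := mul_le_mul_of_nonneg_left p4.le (abs_nonneg a)
      have := mul_le_mul_of_nonneg_left q4.le (abs_nonneg b)
      linarith
  · intro v
    refine ⟨l2_shift hf.l2 v, l2_shift hf.l2G v, ?_⟩
    intro ε hε
    obtain ⟨w, p1, p2, p3, p4⟩ := hf.app ε hε
    refine ⟨fun x => w (x + v), p1.comp (contDiff_id.add contDiff_const), ?_, ?_, ?_⟩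
    · exact p2.comp_homeomorph (Homeomorph.addRight v)
    · have h := nrm_shift (fun x => w x - f x) v
      simpa only [h] using p3
    · have h := nrm_shift (fun x => ∇ w x - F x) v
      have h2 : ∀ x, ∇ (fun x => w (x + v)) x = ∇ w (x + v) := by
        intro x
        simp only [gradient]
        rw [fderiv_comp_add_right]
      simp only [h2]
      rw [h]
      exact p4

end Pool.Agent.Helper77.SD
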