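import Pool.Agent.Helper77.SD.St

set_option autoImplicit false

namespace Pool.Agent.Helper77.SD

open MeasureTheory Metric Set
open scoped Gradient RealInnerProductSpace ENNReal

theorem hLIN' : StLIN := by
  intro d a b ha hb h g Γ hg
  by_contra hne
  have hpos : 0 < |(∫ x, ⟪a x, Γ x⟫) + ∫ x, b x * g x| := abs_pos.2 hne
  obtain ⟨T, hT⟩ : ∃ T, T = |(∫ x, ⟪a x, Γ x⟫) + ∫ x, b x * g x| := ⟨_, rfl⟩
  have hden : 0 < nrm a + nrm b + 1 := by
    have := nrm_nonneg a; have := nrm_nonneg b; linarith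
  obtain ⟨w, hw1, hw2, hw3, hw4⟩ := hg.app (T / (nrm a + nrm b + 1)) (by rw [hT]; positivity)
  have hw0 := h w hw1 hw2
  have hwl : L2 w := l2_of_compact hw1.continuous hw2
  have hwg : L2 (∇ w) := l2_grad hw1 hw2
  have e1 : (∫ x, ⟪a x, Γ x⟫) - ∫ x, ⟪a x, ∇ w x⟫ = ∫ x, ⟪a x, Γ x - ∇ w x⟫ := by
    rw [← integral_sub (integrable_inner ha hg.l2G) (integrable_inner ha hwg)]
    simp only [inner_sub_right]
  have e2 : (∫ x, b x * g x) - ∫ x, b x * w x = ∫ x, b x * (g x - w x) := by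
    rw [← integral_sub (integrable_mul hb hg.l2) (integrable_mul hb hwl)]
    simp only [mul_sub]
  have e3 : T ≤ nrm a * nrm (fun x => Γ x - ∇ w x) + nrm b * nrm (fun x => g x - w x) := by
    have h1 := abs_integral_inner_le ha (hg.l2G.sub hwg)
    have h2 := abs_integral_mul_le hb (hg.l2.sub hwl)
    rw [hT]
    have h3 : (∫ x, ⟪a x, Γ x⟫) + ∫ x, b x * g x =
        (∫ x, ⟪a x, Γ x - ∇ w x⟫) + ∫ x, b x * (g x - w x) := by
      rw [← e1, ← e2]; linarith
    rw [h3]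
    exact (abs_add_le _ _).trans (add_le_add h1 h2)
  rw [nrm_sub_comm] at hw3 hw4
  have ha0 := nrm_nonneg a
  have hb0 := nrm_nonneg b
  have e4 : T ≤ (nrm a + nrm b) * (T / (nrm a + nrm b + 1)) := by
    refine e3.trans ?_
    rw [add_mul]
    exact add_le_add (mul_le_mul_of_nonneg_left hw4.le ha0) (mul_le_mul_of_nonneg_left hw3.le hb0)
  rw [← mul_div_assoc, le_div_iff₀ hden] at e4
  rw [← hT] at hpos
  nlinarith

end Pool.Agent.Helper77.SD
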