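import Pool.Agent.Helper77.SD.Fin3
import Pool.Agent.Helper77.SD.M_CORE
import Pool.Agent.Helper77.SD.M_LIN
import Pool.Agent.Helper77.SD.M_DIVH
import Pool.Agent.Helper77.SD.M_HT
import Pool.Agent.Helper60.SD.M_DIV
import Pool.Agent.Helper92.SD.M_SHC
import Pool.Agent.Helper67.SD.M_SH
import Pool.Agent.Helper96.SD.M_TID
import Pool.Agent.Helper94.SD.M_EST
import Pool.Agent.Helper68.SD.M_KEY
import Pool.Agent.Helper48.SD.M_NUM
import Pool.Agent.Helper79.SD.M_CAC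
import Pool.Agent.Helper99.SD.M_CUT
import Pool.Agent.Helper36.SD.M_MEM1
import Pool.Agent.Helper93.SD.M_MEM
import Pool.Agent.Helper76.SD.M_SOL
import Pool.Agent.Helper95.SD.M_HIL
import Pool.Agent.Helper84.SD.M_COR
import Pool.Agent.Helper15.SD.M_MO1
import Pool.Agent.Helper15.SD.M_MO2
import Pool.Agent.Helper15.SD.M_TST
import Pool.Agent.Helper61.SD.M_WH
import Pool.Agent.Helper80.SD.M_APX
import Pool.Agent.Helper80.SD.M_CV
import Pool.Agent.Helper83.SD.M_DIF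
import Pool.Agent.Helper68.SD.M_COE

/-! # Project SD: all modules together -/

set_option autoImplicit false

namespace Pool.Agent.Helper77.SD

theorem hDIVH0 : StDIVH := hDIVH' hLIN' Pool.Agent.Helper60.SD.hDIV

theorem hTID0 : StTID := Pool.Agent.Helper96.SD.hTID hLIN'

theorem hEST0 : StEST := Pool.Agent.Helper94.SD.hEST hTID0 hDIVH0

theorem hSH0 : StSH := Pool.Agent.Helper67.SD.hSH Pool.Agent.Helper92.SD.hSHC

theorem hKEY0 : StKEY := Pool.Agent.Helper68.SD.hKEY hEST0 hSH0 hHT' hDIVH0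

theorem hMEM0 : StMEM := Pool.Agent.Helper93.SD.hMEM
  (Pool.Agent.Helper36.SD.hMEM1 Pool.Agent.Helper79.SD.hCAC Pool.Agent.Helper99.SD.hCUT) Pool.Agent.Helper99.SD.hCUT

theorem hCORE0 : StCORE := hCORE hKEY0 Pool.Agent.Helper48.SD.hNUM hMEM0 Pool.Agent.Helper76.SD.hSOL
  Pool.Agent.Helper95.SD.hHIL Pool.Agent.Helper84.SD.hCOR

theorem hWH0 : StWH := Pool.Agent.Helper61.SD.hWH (Pool.Agent.Helper15.SD.hMO2 Pool.Agent.Helper15.SD.hMO1)
  Pool.Agent.Helper99.SD.hCUT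

theorem hF1' : StF1 := hF1 hCORE0 hWH0 Pool.Agent.Helper15.SD.hTST Pool.Agent.Helper80.SD.hAPX
  Pool.Agent.Helper80.SD.hCV (Pool.Agent.Helper83.SD.hDIF Pool.Agent.Helper80.SD.hCV)
  (Pool.Agent.Helper68.SD.hCOE Pool.Agent.Helper80.SD.hCV)

end Pool.Agent.Helper77.SD
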