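import Pool.Agent.Helper77.SD.Defs

/-! # Project SD: `L²` toolbox -/

set_option autoImplicit false

namespace Pool.Agent.Helper77.SD

open MeasureTheory Metric Set
open scoped Gradient RealInnerProductSpace ENNReal

variable {d : ℕ} {F F' : Type*} [NormedAddCommGroup F] [NormedAddCommGroup F']

lemma nrm_nonneg (f : E d → F) : 0 ≤ nrm f := Real.sqrt_nonneg _

lemma nrm_sq (f : E d → F) : nrm f ^ 2 = ∫ x, ‖f x‖ ^ 2 :=
  Real.sq_sqrt (integral_nonneg fun _ => sq_nonneg _)

lemma nrm_eq_eLpNorm {f : E d → F} (hf : L2 f) : nrm f = (eLpNorm f 2 volume).toReal := by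
  rw [hf.eLpNorm_eq_integral_rpow_norm (by norm_num) (by norm_num)]
  have h0 : 0 ≤ ∫ x, ‖f x‖ ^ (2 : ℝ≥0∞).toReal := integral_nonneg fun _ => by positivity
  rw [ENNReal.toReal_ofReal (Real.rpow_nonneg h0 _)]
  simp only [ENNReal.toReal_ofNat, Real.rpow_ofNat]
  rw [nrm, Real.sqrt_eq_rpow]
  norm_num

lemma nrm_eq_norm_toLp {f : E d → F} (hf : L2 f) : nrm f = ‖hf.toLp f‖ := by
  rw [nrm_eq_eLpNorm hf, Lp.norm_toLp]

lemma integrable_sq {f : E d → F} (hf : L2 f) : Integrable (fun x => ‖f x‖ ^ 2) :=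
  (memLp_two_iff_integrable_sq_norm hf.1).1 hf

lemma l2_of_sq {f : E d → F} (hm : AEStronglyMeasurable f volume) (h : Integrable (fun x => ‖f x‖ ^ 2)) : L2 f :=
  (memLp_two_iff_integrable_sq_norm hm).2 h

/-- triangle inequality -/
lemma nrm_add_le {f g : E d → F} (hf : L2 f) (hg : L2 g) : nrm (fun x => f x + g x) ≤ nrm f + nrm g := by
  have h : L2 (fun x => f x + g x) := hf.add hg
  rw [nrm_eq_eLpNorm h, nrm_eq_eLpNorm hf, nrm_eq_eLpNorm hg]
  rw [← ENNReal.toReal_add hf.eLpNorm_ne_top hg.eLpNorm_ne_top]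
  exact ENNReal.toReal_mono (ENNReal.add_ne_top.2 ⟨hf.eLpNorm_ne_top, hg.eLpNorm_ne_top⟩)
    (eLpNorm_add_le hf.1 hg.1 (by norm_num))

lemma nrm_neg (f : E d → F) : nrm (fun x => - f x) = nrm f := by simp [nrm]

lemma nrm_sub_le {f g : E d → F} (hf : L2 f) (hg : L2 g) : nrm (fun x => f x - g x) ≤ nrm f + nrm g := by
  have := nrm_add_le hf hg.neg
  simpa [sub_eq_add_neg, nrm] using this

lemma nrm_sub_comm (f g : E d → F) : nrm (fun x => f x - g x) = nrm (fun x => g x - f x) := by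
  simp [nrm, norm_sub_rev]

/-- reverse triangle inequality in the form used later -/
lemma nrm_le_add_sub {f g : E d → F} (hf : L2 f) (hg : L2 g) : nrm f ≤ nrm g + nrm (fun x => f x - g x) := by
  have h := nrm_add_le (f := g) (g := fun x => f x - g x) hg (hf.sub hg)
  simpa using h

/-- domination -/
lemma l2_of_le {f : E d → F} {g : E d → F'} {K : ℝ} (hf : L2 f) (hg : AEStronglyMeasurable g volume)
    (h : ∀ x, ‖g x‖ ≤ K * ‖f x‖) : L2 g :=
  hf.of_le_mul hg (Filter.Eventually.of_forall h)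

lemma nrm_le_of_le {f : E d → F} {g : E d → F'} {K : ℝ} (hK : 0 ≤ K) (hf : L2 f)
    (h : ∀ x, ‖g x‖ ≤ K * ‖f x‖) : nrm g ≤ K * nrm f := by
  have h1 : nrm g ^ 2 ≤ (K * nrm f) ^ 2 := by
    rw [nrm_sq, mul_pow, nrm_sq, ← integral_const_mul]
    refine integral_mono_of_nonneg (Filter.Eventually.of_forall fun x => sq_nonneg _)
      ((integrable_sq hf).const_mul _) (Filter.Eventually.of_forall fun x => ?_)
    have := pow_le_pow_left₀ (norm_nonneg _) (h x) 2
    simpa [mul_pow] using this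
  exact (pow_le_pow_iff_left₀ (nrm_nonneg _) (mul_nonneg hK (nrm_nonneg _)) two_ne_zero).1 h1

lemma nrm_mono_ae {f : E d → F} {g : E d → F'} (hf : L2 f) (h : ∀ᵐ x, ‖g x‖ ≤ ‖f x‖) : nrm g ≤ nrm f := by
  have h1 : nrm g ^ 2 ≤ (nrm f) ^ 2 := by
    rw [nrm_sq, nrm_sq]
    refine integral_mono_of_nonneg (Filter.Eventually.of_forall fun x => sq_nonneg _)
      (integrable_sq hf) ?_
    filter_upwards [h] with x hx
    exact pow_le_pow_left₀ (norm_nonneg _) hx 2
  exact (pow_le_pow_iff_left₀ (nrm_nonneg _) (nrm_nonneg _) two_ne_zero).1 h1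

lemma nrm_smul (a : ℝ) [NormedSpace ℝ F] (f : E d → F) : nrm (fun x => a • f x) = |a| * nrm f := by
  have h1 : nrm (fun x => a • f x) ^ 2 = (|a| * nrm f) ^ 2 := by
    rw [nrm_sq, mul_pow, nrm_sq, ← integral_const_mul]
    congr 1; ext x; rw [norm_smul, Real.norm_eq_abs, mul_pow]
  exact (pow_left_inj₀ (nrm_nonneg _) (mul_nonneg (abs_nonneg _) (nrm_nonneg _)) two_ne_zero).1 h1

/-- Cauchy–Schwarz, products of real functions -/
lemma integrable_mul {f g : E d → ℝ} (hf : L2 f) (hg : L2 g) : Integrable (fun x => f x * g x) :=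
  hf.integrable_mul hg

lemma abs_integral_mul_le {f g : E d → ℝ} (hf : L2 f) (hg : L2 g) : |∫ x, f x * g x| ≤ nrm f * nrm g := by
  have h := abs_real_inner_le_norm (hf.toLp f) (hg.toLp g)
  rw [← nrm_eq_norm_toLp hf, ← nrm_eq_norm_toLp hg, L2.inner_def] at h
  refine le_trans (le_of_eq ?_) h
  congr 1
  apply integral_congr_ae
  filter_upwards [hf.coeFn_toLp, hg.coeFn_toLp] with x h1 h2
  rw [h1, h2]; simp [mul_comm]

/-- Cauchy–Schwarz, inner products of vector fields -/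
lemma integrable_inner {f g : E d → E d} (hf : L2 f) (hg : L2 g) : Integrable (fun x => ⟪f x, g x⟫) := by
  have h := L2.integrable_inner (𝕜 := ℝ) (hf.toLp f) (hg.toLp g)
  refine h.congr ?_
  filter_upwards [hf.coeFn_toLp, hg.coeFn_toLp] with x h1 h2
  rw [h1, h2]

lemma abs_integral_inner_le {f g : E d → E d} (hf : L2 f) (hg : L2 g) : |∫ x, ⟪f x, g x⟫| ≤ nrm f * nrm g := by
  have h := abs_real_inner_le_norm (hf.toLp f) (hg.toLp g)
  rw [← nrm_eq_norm_toLp hf, ← nrm_eq_norm_toLp hg, L2.inner_def] at h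
  refine le_trans (le_of_eq ?_) h
  congr 1
  apply integral_congr_ae
  filter_upwards [hf.coeFn_toLp, hg.coeFn_toLp] with x h1 h2
  rw [h1, h2]

/-- translations -/
lemma l2_shift {f : E d → F} (hf : L2 f) (v : E d) : L2 (fun x => f (x + v)) :=
  hf.comp_measurePreserving (measurePreserving_add_right volume v)

lemma nrm_shift (f : E d → F) (v : E d) : nrm (fun x => f (x + v)) = nrm f := by
  simp only [nrm]
  rw [integral_add_right_eq_self (fun x => ‖f x‖ ^ 2) v]

/-- continuous functions with compact support are in `L²` -/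
lemma l2_of_compact {f : E d → F} (hf : Continuous f) (hc : HasCompactSupport f) : L2 f :=
  hf.memLp_of_hasCompactSupport hc

lemma continuous_grad {w : E d → ℝ} (hw : ContDiff ℝ 1 w) : Continuous (∇ w) :=
  ((InnerProductSpace.toDual ℝ (E d)).symm.continuous).comp (hw.continuous_fderiv (by norm_num))

lemma compact_grad {w : E d → ℝ} (hc : HasCompactSupport w) : HasCompactSupport (∇ w) := by
  have h := hc.fderiv (𝕜 := ℝ)
  exact h.comp_left (g := (InnerProductSpace.toDual ℝ (E d)).symm) (map_zero _)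

lemma l2_grad {w : E d → ℝ} (hw : ContDiff ℝ 1 w) (hc : HasCompactSupport w) : L2 (∇ w) :=
  l2_of_compact (continuous_grad hw) (compact_grad hc)

/-- pairs `(w, ∇w)` with `w ∈ C¹_c` are in `H¹` -/
lemma InH1.of_compact {w : E d → ℝ} (hw : ContDiff ℝ 1 w) (hc : HasCompactSupport w) : InH1 w (∇ w) :=
  ⟨l2_of_compact hw.continuous hc, l2_grad hw hc, fun ε hε => ⟨w, hw, hc, by simpa [nrm] using hε, by simpa [nrm] using hε⟩⟩

end Pool.Agent.Helper77.SD
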