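import Mathlib

/-!
# Project SD (MP_93a5ff_an): definitions

`E d` is `ℝ^d`. Weak solutions of `div (A ∇u) + V u = 0`.
-/

set_option autoImplicit false

namespace Pool.Agent.Helper77.SD

open MeasureTheory Metric Set
open scoped Gradient RealInnerProductSpace

/-- `ℝ^d` with the Euclidean norm -/
abbrev E (d : ℕ) := EuclideanSpace ℝ (Fin d)

/-! ### Definitions of the final statement -/

/-- `u` is in `H¹_loc(ℝ^d)` with weak gradient `G`: `u` and `G` are square integrable on balls and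
`∫ u ∂ᵢψ = - ∫ Gᵢ ψ` for all test functions `ψ` (smooth with compact support) and all `i`. -/
structure WeakGrad {d : ℕ} (u : E d → ℝ) (G : E d → E d) : Prop where
  loc : ∀ R : ℝ, MemLp u 2 (volume.restrict (ball (0 : E d) R))
  locG : ∀ R : ℝ, MemLp G 2 (volume.restrict (ball (0 : E d) R))
  ibp : ∀ ψ : E d → ℝ, ContDiff ℝ (⊤ : ℕ∞) ψ → HasCompactSupport ψ → ∀ i : Fin d,
    ∫ x, u x * (∇ ψ x) i = - ∫ x, G x i * ψ x

/-- `u` is a weak solution in `H¹_loc(ℝ^d)` of `div (A ∇u) + V u = 0`. -/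
def WeakSol {d : ℕ} (A : E d → E d →L[ℝ] E d) (V : E d → ℝ) (u : E d → ℝ) : Prop :=
  ∃ G : E d → E d, WeakGrad u G ∧ ∀ ψ : E d → ℝ, ContDiff ℝ (⊤ : ℕ∞) ψ → HasCompactSupport ψ →
    ∫ x, ⟪A x (G x), ∇ ψ x⟫ = ∫ x, V x * u x * ψ x

/-! ### Internal definitions -/

/-- the `L²` norm (used for square integrable functions only) -/
noncomputable def nrm {d : ℕ} {F : Type*} [NormedAddCommGroup F] (f : E d → F) : ℝ :=
  √(∫ x, ‖f x‖ ^ 2)

/-- square integrable -/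
abbrev L2 {d : ℕ} {F : Type*} [NormedAddCommGroup F] (f : E d → F) : Prop := MemLp f 2 volume

/-- the pair `(f, F)` is in the closure in `L²` of the pairs `(w, ∇w)`, `w ∈ C¹_c` -/
structure InH1 {d : ℕ} (f : E d → ℝ) (F : E d → E d) : Prop where
  l2 : L2 f
  l2G : L2 F
  app : ∀ ε : ℝ, 0 < ε → ∃ w : E d → ℝ, ContDiff ℝ 1 w ∧ HasCompactSupport w ∧
    nrm (fun x => w x - f x) < ε ∧ nrm (fun x => ∇ w x - F x) < ε

/-- weak solutions, tested with `C¹_c` and locally approximated by `C¹` functions -/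
structure Sol {d : ℕ} (A : E d → E d →L[ℝ] E d) (V : E d → ℝ) (u : E d → ℝ) (G : E d → E d) : Prop where
  loc : ∀ R : ℝ, MemLp u 2 (volume.restrict (ball (0 : E d) R))
  locG : ∀ R : ℝ, MemLp G 2 (volume.restrict (ball (0 : E d) R))
  app : ∀ R ε : ℝ, 0 < ε → ∃ v : E d → ℝ, ContDiff ℝ 1 v ∧
    ∫ x in ball (0 : E d) R, (v x - u x) ^ 2 < ε ∧ ∫ x in ball (0 : E d) R, ‖∇ v x - G x‖ ^ 2 < ε
  eq : ∀ ψ : E d → ℝ, ContDiff ℝ 1 ψ → HasCompactSupport ψ →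
    ∫ x, ⟪A x (G x), ∇ ψ x⟫ = ∫ x, V x * u x * ψ x

/-- the divergence of a vector field -/
noncomputable def dv {d : ℕ} (W : E d → E d) (x : E d) : ℝ :=
  ∑ i, (fderiv ℝ W x (EuclideanSpace.single i (1 : ℝ))) i

/-- the weight `√c e^{τ⟨η,x⟩}` -/
noncomputable def wt {d : ℕ} (c : E d → ℝ) (τ : ℝ) (η : E d) (x : E d) : ℝ :=
  √(c x) * Real.exp (τ * ⟪η, x⟫)

/-- the metric part of the data: `B` symmetric elliptic, invariant along `l`, `B η = l`,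
`c` positive, `C¹`, `l`-periodic with bounded logarithmic gradient. -/
structure Met {d : ℕ} (l η : E d) (B : E d → E d →L[ℝ] E d) (c : E d → ℝ) (lam Λ c0 c1 P : ℝ) : Prop where
  lam_pos : 0 < lam
  c0_pos : 0 < c0
  P_nonneg : 0 ≤ P
  contB : Continuous B
  bddB : ∀ x, ‖B x‖ ≤ Λ
  symm : ∀ x y z, ⟪B x y, z⟫ = ⟪y, B x z⟫
  ell : ∀ x y, lam * ‖y‖ ^ 2 ≤ ⟪B x y, y⟫
  inv : ∀ x (t : ℝ), B (x + t • l) = B x
  eta : ∀ x, B x η = l
  smooth : ContDiff ℝ 1 c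
  lo : ∀ x, c0 ≤ c x
  hi : ∀ x, c x ≤ c1
  per : ∀ x, c (x + l) = c x
  bddc : ∀ x, ‖(c x)⁻¹ • ∇ c x‖ ≤ P

/-- the coefficients: measurable, `l`-periodic, `A` within `δ` of `c B`, `|V| ≤ M` -/
structure Coef {d : ℕ} (l : E d) (B : E d → E d →L[ℝ] E d) (c : E d → ℝ) (δ M : ℝ)
    (A : E d → E d →L[ℝ] E d) (V : E d → ℝ) : Prop where
  measA : Measurable A
  measV : Measurable V
  close : ∀ x, ‖A x - c x • B x‖ ≤ δ
  bddV : ∀ x, |V x| ≤ M
  perA : ∀ x, A (x + l) = A x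
  perV : ∀ x, V (x + l) = V x

end Pool.Agent.Helper77.SD
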