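import Pool.Agent.Helper77.SD.St2

/-! # Project SD: final assembly, part (1) -/

set_option autoImplicit false

namespace Pool.Agent.Helper77.SD

open MeasureTheory Metric Set
open scoped Gradient RealInnerProductSpace ENNReal

/-- weak solutions for bounded measurable coefficients are solutions in the internal sense -/
theorem weak_to_sol (hWH : StWH) (hTST : StTST) {d : ℕ} (A : E d → E d →L[ℝ] E d) (V u : E d → ℝ) (Λ' M : ℝ)
    (hA : Measurable A) (hV : Measurable V) (hAb : ∀ x, ‖A x‖ ≤ Λ') (hVb : ∀ x, |V x| ≤ M) (h : WeakSol A V u) :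
    ∃ G, Sol A V u G := by
  obtain ⟨G, hG, heq⟩ := h
  refine ⟨G, hG.loc, hG.locG, fun R ε hε => hWH d u G hG R ε hε, ?_⟩
  have hfin : ∀ R : ℝ, IsFiniteMeasure ((volume : Measure (E d)).restrict (ball 0 R)) := fun R =>
    ⟨by rw [Measure.restrict_apply_univ]; exact measure_ball_lt_top⟩
  have hGi : ∀ R : ℝ, Integrable G (volume.restrict (ball (0 : E d) R)) := fun R => by
    haveI := hfin R
    exact (hG.locG R).integrable (by norm_num)
  have hui : ∀ R : ℝ, Integrable u (volume.restrict (ball (0 : E d) R)) := fun R => by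
    haveI := hfin R
    exact (hG.loc R).integrable (by norm_num)
  refine hTST d (fun x => A x (G x)) (fun x => V x * u x) (fun R => ?_) (fun R => ?_) ?_
  · have hm : AEStronglyMeasurable (fun x => A x (G x)) (volume.restrict (ball (0 : E d) R)) := by
      have h1 : AEStronglyMeasurable A (volume.restrict (ball (0 : E d) R)) := hA.aestronglyMeasurable
      exact (ContinuousLinearMap.apply ℝ (E d)).aestronglyMeasurable_comp₂ (hGi R).1 h1
    exact Integrable.mono' ((hGi R).norm.const_mul Λ') hm (Filter.Eventually.of_forall fun x =>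
      ((A x).le_opNorm (G x)).trans (mul_le_mul_of_nonneg_right (hAb x) (norm_nonneg _)))
  · exact Integrable.mono' ((hui R).norm.const_mul M) (hV.aestronglyMeasurable.mul (hui R).1)
      (Filter.Eventually.of_forall fun x => by
        rw [norm_mul]; exact mul_le_mul_of_nonneg_right (hVb x) (norm_nonneg _))
  · intro ψ h1 h2
    exact heq ψ h1 h2

/-- part (1) of the final theorem -/
def StF1 : Prop := ∀ (d : ℕ) (l l' η : E d) (B : E d → E d →L[ℝ] E d) (c : E d → ℝ) (Φ Ψ : E d → E d)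
  (lam Λ c₀ c₁ P κ M : ℝ), l ≠ 0 → 0 ≤ M → Met l η B c lam Λ c₀ c₁ P → Dif Φ Ψ l l' κ →
  UniformContinuous (fun x => B x ((c x)⁻¹ • ∇ c x)) →
  ∃ δ C : ℝ, 0 < δ ∧ 0 < C ∧ ∀ (A : E d → E d →L[ℝ] E d) (V : E d → ℝ), Measurable A → Measurable V →
    (∀ y, A (y + l') = A y) → (∀ y, V (y + l') = V y) →
    (∀ x, ‖A (Φ x) - pushB Φ (fun x => c x • B x) x‖ ≤ δ) → (∀ y, |V y| ≤ M) →
    ∀ u : E d → ℝ, WeakSol A V u → MemLp (fun y => Real.exp (C * |⟪η, Ψ y⟫|) * u y) 2 volume → u =ᵐ[volume] 0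

theorem hF1 (hCORE : StCORE) (hWH : StWH) (hTST : StTST) (hAPX : StAPX) (hCV : StCV) (hDIF : StDIF) (hCOE : StCOE) : StF1 := by
  intro d l l' η B c Φ Ψ lam Λ c₀ c₁ P κ M hl hM hm hd huc
  have hκ : 0 ≤ κ := (norm_nonneg _).trans (hd.bdd 0)
  have hΛ : 0 ≤ Λ := (norm_nonneg _).trans (hm.bddB 0)
  have hW : ∀ ε : ℝ, 0 < ε → ∃ (W : E d → E d) (K : ℝ), ContDiff ℝ 1 W ∧ (∀ x, ‖B x (lg c x) - W x‖ ≤ ε) ∧
      ∀ x, |dv W x| ≤ K := by
    refine hAPX d (fun x => B x (lg c x)) (Λ * P) huc fun x => ?_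
    exact ((B x).le_opNorm _).trans (mul_le_mul (hm.bddB x) (hm.bddc x) (norm_nonneg _) hΛ)
  obtain ⟨δ₀, C, hδ₀, hC, hmain⟩ := hCORE d l η B c lam Λ c₀ c₁ P (κ * M) hl (mul_nonneg hκ hM) hm hW
  refine ⟨δ₀ / (κ ^ 3 + 1), C, by positivity, hC, ?_⟩
  intro A V hA hV hpA hpV hcl hbV u hu hdec
  obtain ⟨hcv1, hcv2, hcv3, hcv4, hcv5, hcv6, -, -, -⟩ := hCV d Φ Ψ l l' κ hd
  -- bound of `A`
  have hdet : ∀ x, |(fderiv ℝ Φ x).det|⁻¹ ≤ κ := by
    intro x
    have h1 : (fderiv ℝ Ψ (Φ x)).det * (fderiv ℝ Φ x).det = 1 := by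
      have h2 := congrArg ContinuousLinearMap.det (hcv2 x)
      simpa [ContinuousLinearMap.det, LinearMap.det_comp] using h2
    have h3 : |(fderiv ℝ Ψ (Φ x)).det| * |(fderiv ℝ Φ x).det| = 1 := by rw [← abs_mul, h1, abs_one]
    rw [← eq_inv_of_mul_eq_one_left h3]
    exact hd.jac' _
  have hAb : ∀ y, ‖A y‖ ≤ δ₀ / (κ ^ 3 + 1) + κ * (κ * (c₁ * Λ * κ)) := by
    intro y
    have h1 : A y = (A (Φ (Ψ y)) - pushB Φ (fun x => c x • B x) (Ψ y)) + pushB Φ (fun x => c x • B x) (Ψ y) := by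
      rw [hd.right]; abel
    rw [h1]
    refine (norm_add_le _ _).trans (add_le_add (hcl _) ?_)
    rw [pushB, norm_smul]
    have h2 : ‖(|(fderiv ℝ Φ (Ψ y)).det|⁻¹ : ℝ)‖ ≤ κ := by
      rw [Real.norm_eq_abs, abs_of_nonneg (by positivity)]; exact hdet _
    refine mul_le_mul h2 ?_ (norm_nonneg _) hκ
    refine (ContinuousLinearMap.opNorm_comp_le _ _).trans ?_
    refine mul_le_mul (hd.bdd _) ?_ (norm_nonneg _) hκ
    refine (ContinuousLinearMap.opNorm_comp_le _ _).trans ?_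
    have h3 : ‖c (Ψ y) • B (Ψ y)‖ ≤ c₁ * Λ := by
      rw [norm_smul, Real.norm_eq_abs, abs_of_pos (lt_of_lt_of_le hm.c0_pos (hm.lo _))]
      exact mul_le_mul (hm.hi _) (hm.bddB _) (norm_nonneg _)
        ((lt_of_lt_of_le hm.c0_pos (hm.lo (Ψ y))).le.trans (hm.hi _))
    have h4 : ‖ContinuousLinearMap.adjoint (fderiv ℝ Φ (Ψ y))‖ ≤ κ := by
      rw [LinearIsometryEquiv.norm_map]; exact hd.bdd _
    exact mul_le_mul h3 h4 (norm_nonneg _) ((norm_nonneg _).trans h3)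
  obtain ⟨G, hG⟩ := weak_to_sol hWH hTST A V u _ M hA hV hAb hbV hu
  have hG' := hDIF d Φ Ψ l l' κ hd A V u G hG
  have hco := hCOE d Φ Ψ l l' κ hd B c (δ₀ / (κ ^ 3 + 1)) M A V hA hV hcl hbV hpA hpV
  have hco' : Coef l B c δ₀ (κ * M) (pullA Φ Ψ A) (pullV Φ V) := by
    refine ⟨hco.measA, hco.measV, fun x => (hco.close x).trans ?_, hco.bddV, hco.perA, hco.perV⟩
    rw [mul_div_assoc']
    rw [div_le_iff₀ (by positivity)]
    nlinarith [pow_nonneg hκ 3]
  have hdec' : L2 (fun x => Real.exp (C * |⟪η, x⟫|) * u (Φ x)) := by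
    have h1 := hcv6 _ hdec
    simpa only [hd.left] using h1
  have h0 := hmain _ _ hco' _ _ hG' hdec'
  have h1 := hcv5.ae_eq_comp h0
  filter_upwards [h1] with y hy
  simpa only [Function.comp_apply, hd.right, Pi.zero_apply] using hy

end Pool.Agent.Helper77.SD
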