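import Pool.Agent.Helper77.SD.Fin1

/-! # Project SD: final assembly, part (2): the class of the problem -/

set_option autoImplicit false

namespace Pool.Agent.Helper77.SD

open MeasureTheory Metric Set
open scoped Gradient RealInnerProductSpace ENNReal

/-- part (2) of the final theorem -/
def StF2 : Prop := ∀ (d : ℕ) (k : Fin d → ℤ) (η : E d) (B : E d → E d →L[ℝ] E d) (c : E d → ℝ) (Φ Ψ : E d → E d)
  (lam M : ℝ), k ≠ 0 → 0 < lam → 0 ≤ M →
  Continuous B → ZPer B → (∀ x y z, ⟪B x y, z⟫ = ⟪y, B x z⟫) → (∀ x y, lam * ‖y‖ ^ 2 ≤ ⟪B x y, y⟫) →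
  (∀ x (t : ℝ), B (x + t • zv k) = B x) → (∀ x, B x η = zv k) →
  ContDiff ℝ 1 c → (∀ x, 0 < c x) → ZPer c →
  ContDiff ℝ 1 Φ → ContDiff ℝ 1 Ψ → (∀ x, Ψ (Φ x) = x) → (∀ y, Φ (Ψ y) = y) →
  (∀ (m : Fin d → ℤ) (x : E d), Φ (x + zv m) = Φ x + zv m) →
  ∃ δ C : ℝ, 0 < δ ∧ 0 < C ∧ ∀ (A : E d → E d →L[ℝ] E d) (V : E d → ℝ),
    ContDiff ℝ 1 A → ContDiff ℝ 1 V → ZPer A → ZPer V →
    (∀ x, ‖A (Φ x) - pushB Φ (fun x => c x • B x) x‖ ≤ δ) → (∀ y, |V y| ≤ M) →
    (∀ u : E d → ℝ, WeakSol A V u → (∃ K : ℝ, ∀ᵐ y : E d, |u y| ≤ K * Real.exp (-(C * ‖y‖))) → u =ᵐ[volume] 0) ∧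
    (∀ (γ : ℝ) (u : E d → ℝ), 1 < γ → WeakSol A V u → (∀ᵐ y : E d, |u y| ≤ Real.exp (-(‖y‖ ^ γ))) → u =ᵐ[volume] 0) ∧
    (∀ (γ : ℝ) (u : E d → ℝ), 1 < γ → ContDiff ℝ 2 u → (∀ y, dv (fun z => A z (∇ u z)) y + V y * u y = 0) →
      (∀ y, |u y| ≤ Real.exp (-(‖y‖ ^ γ))) → ∀ y, u y = 0)

theorem hF2 (hF1 : StF1) (hPER : StPER) (hEXP : StEXP) (hGAM : StGAM) (hCLS : StCLS) : StF2 := by
  intro d k η B c Φ Ψ lam M hk hlam hM hBc hBp hBs hBe hBi hBη hc hc0 hcp hΦ hΨ hl hr hΦp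
  -- constants
  have hzv : zv k ≠ (0 : E d) := by
    intro h
    apply hk
    funext i
    have h1 := congrArg (fun v : E d => v i) h
    simpa [zv] using h1
  obtain ⟨Λ, hΛ⟩ := (hPER d (E d →L[ℝ] E d) B hBc hBp).1
  obtain ⟨c₁, hc₁⟩ := (hPER d ℝ c hc.continuous hcp).1
  obtain ⟨x₀, hx₀⟩ := (hPER d ℝ c hc.continuous hcp).2.2
  have hgc : Continuous (∇ c) := continuous_grad hc
  have hgp : ZPer (∇ c) := by
    intro m x
    simp only [gradient]
    congr 1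
    have h1 : (fun y => c (y + zv m)) = c := funext fun y => hcp m y
    have h2 := fderiv_comp_add_right (𝕜 := ℝ) (f := c) (x := x) (zv m)
    rw [h1] at h2
    exact h2.symm
  have hpc : Continuous (fun x => (c x)⁻¹ • ∇ c x) :=
    (hc.continuous.inv₀ fun x => (hc0 x).ne').smul hgc
  have hpp : ZPer (fun x => (c x)⁻¹ • ∇ c x) := fun m x => by simp only [hcp m x, hgp m x]
  obtain ⟨P, hP⟩ := (hPER d (E d) _ hpc hpp).1
  have hZc : Continuous (fun x => B x ((c x)⁻¹ • ∇ c x)) := hBc.clm_apply hpc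
  have hZp : ZPer (fun x => B x ((c x)⁻¹ • ∇ c x)) := fun m x => by
    simp only [hBp m x, hcp m x, hgp m x]
  have huc := (hPER d (E d) _ hZc hZp).2.1
  have hmet : Met (zv k) η B c lam Λ (c x₀) c₁ P :=
    { lam_pos := hlam
      c0_pos := hc0 x₀
      P_nonneg := (norm_nonneg _).trans (hP 0)
      contB := hBc
      bddB := hΛ
      symm := hBs
      ell := hBe
      inv := hBi
      eta := hBη
      smooth := hc
      lo := fun x => by
        have := hx₀ x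
        rwa [Real.norm_eq_abs, Real.norm_eq_abs, abs_of_pos (hc0 _), abs_of_pos (hc0 _)] at this
      hi := fun x => (le_abs_self _).trans (hc₁ x)
      per := fun x => hcp k x
      bddc := hP }
  -- the change of variables
  have hΨp : ∀ (m : Fin d → ℤ) (y : E d), Ψ (y + zv m) = Ψ y + zv m := by
    intro m y
    have h1 := hΦp m (Ψ y)
    rw [hr] at h1
    rw [← h1, hl]
  have hDper : ∀ (F : E d → E d), (∀ (m : Fin d → ℤ) (x : E d), F (x + zv m) = F x + zv m) → ZPer (fderiv ℝ F) := by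
    intro F hF m x
    have h1 : (fun y => F (y + zv m)) = fun y => F y + zv m := funext fun y => hF m y
    have h2 := fderiv_comp_add_right (𝕜 := ℝ) (f := F) (x := x) (zv m)
    rw [h1, fderiv_add_const] at h2
    exact h2.symm
  have hDΦ := hPER d (E d →L[ℝ] E d) (fderiv ℝ Φ) (hΦ.continuous_fderiv (by norm_num)) (hDper Φ hΦp)
  have hDΨ := hPER d (E d →L[ℝ] E d) (fderiv ℝ Ψ) (hΨ.continuous_fderiv (by norm_num)) (hDper Ψ hΨp)
  have hJΦ := hPER d ℝ (fun x => (fderiv ℝ Φ x).det)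
    (ContinuousLinearMap.continuous_det.comp (hΦ.continuous_fderiv (by norm_num)))
    (fun m x => by simp only [hDper Φ hΦp m x])
  have hJΨ := hPER d ℝ (fun x => (fderiv ℝ Ψ x).det)
    (ContinuousLinearMap.continuous_det.comp (hΨ.continuous_fderiv (by norm_num)))
    (fun m x => by simp only [hDper Ψ hΨp m x])
  obtain ⟨q1, hq1⟩ := hDΦ.1
  obtain ⟨q2, hq2⟩ := hDΨ.1
  obtain ⟨q3, hq3⟩ := hJΦ.1
  obtain ⟨q4, hq4⟩ := hJΨ.1
  obtain ⟨κ, k1, k2, k3, k4⟩ : ∃ κ, q1 ≤ κ ∧ q2 ≤ κ ∧ q3 ≤ κ ∧ q4 ≤ κ :=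
    ⟨max (max q1 q2) (max q3 q4), (le_max_left _ _).trans (le_max_left _ _), (le_max_right _ _).trans (le_max_left _ _),
      (le_max_left _ _).trans (le_max_right _ _), (le_max_right _ _).trans (le_max_right _ _)⟩
  have hdif : Dif Φ Ψ (zv k) (zv k) κ :=
    { left := hl
      right := hr
      smooth := hΦ
      smooth' := hΨ
      bdd := fun x => (hq1 x).trans k1
      bdd' := fun x => (hq2 x).trans k2
      jac := fun x => (hq3 x).trans k3
      jac' := fun x => (hq4 x).trans k4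
      per := fun x => hΦp k x }
  have hκ : 0 ≤ κ := (norm_nonneg _).trans (hdif.bdd 0)
  obtain ⟨δ, C, hδ, hC, hmain⟩ := hF1 d (zv k) (zv k) η B c Φ Ψ lam Λ (c x₀) c₁ P κ M hzv hM hmet hdif huc
  -- growth of `Ψ`
  have hgrow : ∀ y, ‖Ψ y‖ ≤ ‖Ψ 0‖ + κ * ‖y‖ := by
    intro y
    have h1 : ‖Ψ y - Ψ 0‖ ≤ κ * ‖y - 0‖ :=
      Convex.norm_image_sub_le_of_norm_fderiv_le (𝕜 := ℝ) (s := Set.univ)
        (fun x _ => (hΨ.differentiable (by norm_num)).differentiableAt) (fun x _ => hdif.bdd' x) convex_univ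
        (Set.mem_univ _) (Set.mem_univ _)
    rw [sub_zero] at h1
    calc ‖Ψ y‖ = ‖Ψ 0 + (Ψ y - Ψ 0)‖ := by congr 1; abel
      _ ≤ _ := (norm_add_le _ _).trans (add_le_add le_rfl h1)
  have hweak : ∀ (A : E d → E d →L[ℝ] E d) (V : E d → ℝ),
    ContDiff ℝ 1 A → ContDiff ℝ 1 V → ZPer A → ZPer V →
    (∀ x, ‖A (Φ x) - pushB Φ (fun x => c x • B x) x‖ ≤ δ) → (∀ y, |V y| ≤ M) →
    ∀ u : E d → ℝ, WeakSol A V u →
      (∃ K : ℝ, ∀ᵐ y : E d, |u y| ≤ K * Real.exp (-((C * ‖η‖ * κ + 1) * ‖y‖))) → u =ᵐ[volume] 0 := by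
    intro A V hA hV hAp hVp hcl hVb u hu ⟨K, hK⟩
    refine hmain A V hA.continuous.measurable hV.continuous.measurable (fun y => hAp k y) (fun y => hVp k y) hcl hVb u hu ?_
    have hum : AEStronglyMeasurable u volume := by
      obtain ⟨G, hG, -⟩ := hu
      have h1 : ∀ n : ℕ, AEStronglyMeasurable u (volume.restrict (ball (0 : E d) n)) := fun n => (hG.loc n).1
      have h2 := aestronglyMeasurable_iUnion_iff.2 h1
      rwa [iUnion_ball_nat, Measure.restrict_univ] at h2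
    have hK0 : ∀ᵐ y : E d, |u y| ≤ |K| * Real.exp (-((C * ‖η‖ * κ + 1) * ‖y‖)) := by
      filter_upwards [hK] with y hy
      exact hy.trans (mul_le_mul_of_nonneg_right (le_abs_self _) (Real.exp_pos _).le)
    have hint : MemLp (fun y : E d => Real.exp (-‖y‖)) 2 volume := by
      refine (memLp_two_iff_integrable_sq_norm ?_).2 ?_
      · exact (by fun_prop : Continuous fun y : E d => Real.exp (-‖y‖)).aestronglyMeasurable
      · refine Integrable.mono' (hEXP d)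
          (by fun_prop : Continuous fun y : E d => ‖Real.exp (-‖y‖)‖ ^ 2).aestronglyMeasurable
          (Filter.Eventually.of_forall fun y => ?_)
        have h1 : Real.exp (-‖y‖) ≤ 1 := Real.exp_le_one_iff.2 (by simp)
        rw [norm_pow, norm_norm, Real.norm_eq_abs, Real.abs_exp, sq]
        exact mul_le_of_le_one_left (Real.exp_pos _).le h1
    refine MemLp.of_le_mul (c := |K| * Real.exp (C * ‖η‖ * ‖Ψ 0‖)) hint ?_ ?_
    · refine AEStronglyMeasurable.mul ?_ hum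
      have : Continuous fun y : E d => Real.exp (C * |⟪η, Ψ y⟫|) := by
        have := hΨ.continuous
        fun_prop
      exact this.aestronglyMeasurable
    · filter_upwards [hK0] with y hy
      rw [norm_mul, Real.norm_eq_abs, Real.norm_eq_abs, Real.norm_eq_abs, Real.abs_exp, Real.abs_exp]
      have h1 : C * |⟪η, Ψ y⟫| ≤ C * ‖η‖ * ‖Ψ 0‖ + C * ‖η‖ * κ * ‖y‖ := by
        have h2 : |⟪η, Ψ y⟫| ≤ ‖η‖ * (‖Ψ 0‖ + κ * ‖y‖) :=
          (abs_real_inner_le_norm _ _).trans (mul_le_mul_of_nonneg_left (hgrow y) (norm_nonneg _))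
        have h3 := mul_le_mul_of_nonneg_left h2 hC.le
        linarith
      calc Real.exp (C * |⟪η, Ψ y⟫|) * |u y|
          ≤ Real.exp (C * ‖η‖ * ‖Ψ 0‖ + C * ‖η‖ * κ * ‖y‖) * (|K| * Real.exp (-((C * ‖η‖ * κ + 1) * ‖y‖))) :=
            mul_le_mul (Real.exp_le_exp.2 h1) hy (abs_nonneg _) (Real.exp_pos _).le
        _ = |K| * Real.exp (C * ‖η‖ * ‖Ψ 0‖) * Real.exp (-‖y‖) := by
            rw [Real.exp_add]
            have h4 : Real.exp (-((C * ‖η‖ * κ + 1) * ‖y‖)) = (Real.exp (C * ‖η‖ * κ * ‖y‖))⁻¹ * Real.exp (-‖y‖) := by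
              rw [← Real.exp_neg, ← Real.exp_add]; congr 1; ring
            rw [h4]
            have h5 := (Real.exp_pos (C * ‖η‖ * κ * ‖y‖)).ne'
            field_simp
  refine ⟨δ, C * ‖η‖ * κ + 1, hδ, by positivity, ?_⟩
  intro A V hA hV hAp hVp hcl hVb
  have hgam : ∀ (γ : ℝ) (u : E d → ℝ), 1 < γ → WeakSol A V u → (∀ᵐ y : E d, |u y| ≤ Real.exp (-(‖y‖ ^ γ))) → u =ᵐ[volume] 0 := by
    intro γ u hγ hu hb
    obtain ⟨K, -, hK⟩ := hGAM γ (C * ‖η‖ * κ + 1) hγ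
    refine hweak A V hA hV hAp hVp hcl hVb u hu ⟨K, ?_⟩
    filter_upwards [hb] with y hy
    exact hy.trans (hK _ (norm_nonneg _))
  refine ⟨fun u hu hK => hweak A V hA hV hAp hVp hcl hVb u hu hK, hgam, ?_⟩
  intro γ u hγ hu2 hu hb y
  have h1 := hgam γ u hγ (hCLS d A V u hA hV.continuous hu2 hu) (Filter.Eventually.of_forall hb)
  have h2 : u = fun _ => (0 : ℝ) := by
    refine Continuous.ae_eq_iff_eq volume hu2.continuous continuous_const |>.1 ?_
    exact h1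
  rw [h2]

end Pool.Agent.Helper77.SD
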