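import Pool.Agent.Helper77.SD.Fin1

/-! # Project SD: final form of part (1) -/

set_option autoImplicit false

namespace Pool.Agent.Helper77.SD

open MeasureTheory Metric Set
open scoped Gradient RealInnerProductSpace ENNReal

theorem final (hF1 : StF1) (d : ℕ) (l l' η : E d) (B : E d → E d →L[ℝ] E d) (c : E d → ℝ)
    (Φ Ψ : E d → E d) (lam Λ c₀ c₁ P κ M : ℝ) (hl : l ≠ 0) (h1 : 0 < lam) (h2 : 0 < c₀) (h3 : Continuous B)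
    (h4 : ∀ x, ‖B x‖ ≤ Λ) (h5 : ∀ x y z, ⟪B x y, z⟫ = ⟪y, B x z⟫) (h6 : ∀ x y, lam * ‖y‖ ^ 2 ≤ ⟪B x y, y⟫)
    (h7 : ∀ x (t : ℝ), B (x + t • l) = B x) (h8 : ∀ x, B x η = l)
    (h9 : ContDiff ℝ 1 c) (h10 : ∀ x, c₀ ≤ c x) (h11 : ∀ x, c x ≤ c₁) (h12 : ∀ x, c (x + l) = c x)
    (h13 : ∀ x, ‖(c x)⁻¹ • ∇ c x‖ ≤ P) (h14 : UniformContinuous (fun x => B x ((c x)⁻¹ • ∇ c x)))
    (h15 : ∀ x, Ψ (Φ x) = x) (h16 : ∀ y, Φ (Ψ y) = y) (h17 : ContDiff ℝ 1 Φ) (h18 : ContDiff ℝ 1 Ψ)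
    (h19 : ∀ x, ‖fderiv ℝ Φ x‖ ≤ κ) (h20 : ∀ y, ‖fderiv ℝ Ψ y‖ ≤ κ) (h21 : ∀ x, Φ (x + l) = Φ x + l') :
    ∃ δ C : ℝ, 0 < δ ∧ 0 < C ∧ ∀ (A : E d → E d →L[ℝ] E d) (V : E d → ℝ), Measurable A → Measurable V →
      (∀ y, A (y + l') = A y) → (∀ y, V (y + l') = V y) →
      (∀ x, ‖A (Φ x) - pushB Φ (fun x => c x • B x) x‖ ≤ δ) → (∀ y, |V y| ≤ M) →
      ∀ u : E d → ℝ, WeakSol A V u → MemLp (fun y => Real.exp (C * |⟪η, Ψ y⟫|) * u y) 2 volume → u =ᵐ[volume] 0 := by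
  have hm : Met l η B c lam Λ c₀ c₁ P :=
    ⟨h1, h2, (norm_nonneg _).trans (h13 0), h3, h4, h5, h6, h7, h8, h9, h10, h11, h12, h13⟩
  obtain ⟨q, hq⟩ : ∃ q : ℝ, ∀ L : E d →L[ℝ] E d, ‖L‖ ≤ κ → |L.det| ≤ q := by
    have hc : IsCompact (closedBall (0 : E d →L[ℝ] E d) κ) := isCompact_closedBall _ _
    obtain ⟨q, hq⟩ := hc.exists_bound_of_continuousOn
      (f := fun L : E d →L[ℝ] E d => L.det) ContinuousLinearMap.continuous_det.continuousOn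
    exact ⟨q, fun L hL => hq L (by simpa using hL)⟩
  have hd : Dif Φ Ψ l l' (max κ q) :=
    ⟨h15, h16, h17, h18, fun x => (h19 x).trans (le_max_left _ _), fun x => (h20 x).trans (le_max_left _ _),
      fun x => (hq _ (h19 x)).trans (le_max_right _ _), fun x => (hq _ (h20 x)).trans (le_max_right _ _), h21⟩
  obtain ⟨δ, C, hδ, hC, h⟩ := hF1 d l l' η B c Φ Ψ lam Λ c₀ c₁ P (max κ q) (max M 0) hl (le_max_right _ _) hm hd h14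
  exact ⟨δ, C, hδ, hC, fun A V a1 a2 a3 a4 a5 a6 => h A V a1 a2 a3 a4 a5 fun y => (a6 y).trans (le_max_left _ _)⟩

end Pool.Agent.Helper77.SD
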