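import Mathlib

/-!
# Project SD (MP_93a5ff_an): the definitions used in the final statement

Everything is about `ℝ^d = E d` and linear maps `ℝ^d → ℝ^d`.
-/

set_option autoImplicit false

namespace Pool.Agent.Helper77.SDS

open MeasureTheory Metric Set

/-- `ℝ^d` with the Euclidean norm -/
abbrev E (d : ℕ) : Type := EuclideanSpace ℝ (Fin d)

/-- linear maps `ℝ^d → ℝ^d` (`d × d` matrices) -/
abbrev Op (d : ℕ) : Type := E d →L[ℝ] E d

/-- the vector `T v` -/
noncomputable def ap {d : ℕ} (T : Op d) (v : E d) : E d := T v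

/-- the operator norm `‖T‖` -/
noncomputable def nm {d : ℕ} (T : Op d) : ℝ := ‖T‖

/-- the Euclidean inner product -/
noncomputable def ip {d : ℕ} (v w : E d) : ℝ := inner ℝ v w

/-- the Euclidean norm -/
noncomputable def len {d : ℕ} (v : E d) : ℝ := ‖v‖

/-- the `i`-th basis vector -/
noncomputable def e {d : ℕ} (i : Fin d) : E d := EuclideanSpace.single i 1

/-- the vector `Tᵀ v`, with the coordinates `⟨T eᵢ, v⟩` -/
noncomputable def tr {d : ℕ} (T : Op d) (v : E d) : E d := WithLp.toLp 2 (fun i => ip (ap T (e i)) v)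

/-- the gradient -/
noncomputable def grad {d : ℕ} (f : E d → ℝ) (x : E d) : E d := gradient f x

/-- the derivative `DΦ(x)` -/
noncomputable def D {d : ℕ} (Φ : E d → E d) (x : E d) : Op d := fderiv ℝ Φ x

/-- `Φ : ℝ^d → ℝ^d` is `C¹` -/
def C1 {d : ℕ} (Φ : E d → E d) : Prop := ContDiff ℝ 1 Φ

/-- `c : ℝ^d → ℝ` is `C¹` -/
def C1' {d : ℕ} (c : E d → ℝ) : Prop := ContDiff ℝ 1 c

/-- a test function: smooth with compact support -/
def Test {d : ℕ} (ψ : E d → ℝ) : Prop := ContDiff ℝ (⊤ : ℕ∞) ψ ∧ HasCompactSupport ψ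

/-- `u = 0` almost everywhere -/
def AEZero {d : ℕ} (u : E d → ℝ) : Prop := ∀ᵐ x, u x = 0

/-- `u` is square integrable on `ℝ^d` -/
def SqInt {d : ℕ} (u : E d → ℝ) : Prop := MemLp u 2 volume

/-- `u` is square integrable on all balls -/
def LocSq {d : ℕ} (u : E d → ℝ) : Prop := ∀ R : ℝ, MemLp u 2 (volume.restrict (ball 0 R))

/-- the vector field `G` is square integrable on all balls -/
def LocSq' {d : ℕ} (G : E d → E d) : Prop := ∀ R : ℝ, MemLp G 2 (volume.restrict (ball 0 R))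

/-- `∫ f` over `ℝ^d` -/
noncomputable def Int {d : ℕ} (f : E d → ℝ) : ℝ := ∫ x, f x

/-- the function `F` on `ℝ^d` (with values in matrices) is `l`-periodic -/
def Per {d : ℕ} {α : Type} (l : E d) (F : E d → α) : Prop := ∀ x, F (x + l) = F x

/-- `F` is invariant along the line `ℝ l` -/
def Inv {d : ℕ} {α : Type} (l : E d) (F : E d → α) : Prop := ∀ (x : E d) (t : ℝ), F (x + t • l) = F x

/-- `B : ℝ^d → ` matrices is continuous and bounded -/
def ContBdd {d : ℕ} (B : E d → Op d) : Prop := Continuous B ∧ ∃ Λ : ℝ, ∀ x, nm (B x) ≤ Λ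

/-- each `B(x)` is symmetric -/
def Symm {d : ℕ} (B : E d → Op d) : Prop := ∀ x y z, ip (ap (B x) y) z = ip y (ap (B x) z)

/-- uniform ellipticity -/
def Ell {d : ℕ} (B : E d → Op d) : Prop := ∃ lam : ℝ, 0 < lam ∧ ∀ x y, lam * len y ^ 2 ≤ ip (ap (B x) y) y

/-- `B` is a continuous bounded field of symmetric, uniformly elliptic matrices on `ℝ^d`, invariant along the vector `l ≠ 0`, with
`B(x) η = l` for all `x` (the direction `l` is parallel for the metric `B⁻¹`) -/
structure ParallelMetric {d : ℕ} (l η : E d) (B : E d → Op d) : Prop where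
  ne : l ≠ 0
  cont : ContBdd B
  symm : Symm B
  ell : Ell B
  inv : Inv l B
  par : ∀ x, ap (B x) η = l

/-- the field `B ∇ log c` -/
noncomputable def logGrad {d : ℕ} (B : E d → Op d) (c : E d → ℝ) (x : E d) : E d := ap (B x) ((c x)⁻¹ • grad c x)

/-- `c` is an `l`-periodic `C¹` function between two positive constants with bounded gradient, and `B ∇log c` is uniformly
continuous -/
structure ConfFactor {d : ℕ} (l : E d) (B : E d → Op d) (c : E d → ℝ) : Prop where
  smooth : C1' c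
  lo : ∃ c₀ : ℝ, 0 < c₀ ∧ ∀ x, c₀ ≤ c x
  hi : ∃ c₁ : ℝ, ∀ x, c x ≤ c₁
  per : Per l c
  bdd : ∃ P : ℝ, ∀ x, len (grad c x) ≤ P
  unif : UniformContinuous (logGrad B c)

/-- `Φ` is a `C¹` diffeomorphism of `ℝ^d` with inverse `Ψ`, both derivatives are bounded, `Φ(x + l) = Φ(x) + l'` -/
structure ChangeOfVar {d : ℕ} (Φ Ψ : E d → E d) (l l' : E d) : Prop where
  left : ∀ x, Ψ (Φ x) = x
  right : ∀ y, Φ (Ψ y) = y
  smooth : C1 Φ
  smooth' : C1 Ψ
  bdd : ∃ κ : ℝ, ∀ x, nm (D Φ x) ≤ κ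
  bdd' : ∃ κ : ℝ, ∀ y, nm (D Ψ y) ≤ κ
  per : ∀ x, Φ (x + l) = Φ x + l'

/-- the scalar `|det T|⁻¹` -/
noncomputable def jac {d : ℕ} (T : Op d) : ℝ := |T.det|⁻¹

/-- `Q v`, where `Q` is the push-forward of `c B` under `Φ`, at the point `Φ(x)`: `Q = c(x) |det DΦ(x)|⁻¹ DΦ(x) B(x) DΦ(x)ᵀ` -/
noncomputable def push {d : ℕ} (Φ : E d → E d) (B : E d → Op d) (c : E d → ℝ) (x v : E d) : E d :=
  (c x * jac (D Φ x)) • ap (D Φ x) (ap (B x) (tr (D Φ x) v))

/-- `A`, `W` are measurable and `l'`-periodic, `|W| ≤ M`, and `A` (not necessarily symmetric) is within `δ` of the push-forward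
of `c B` under `Φ` -/
structure NearPush {d : ℕ} (l' : E d) (Φ : E d → E d) (B : E d → Op d) (c : E d → ℝ) (δ M : ℝ)
    (A : E d → Op d) (W : E d → ℝ) : Prop where
  measA : Measurable A
  measW : Measurable W
  perA : Per l' A
  perW : Per l' W
  close : ∀ x v, len (ap (A (Φ x)) v - push Φ B c x v) ≤ δ * len v
  bddW : ∀ y, |W y| ≤ M

/-- `u` is in `H¹_loc(ℝ^d)` with weak gradient `G`: `u` and `G` are square integrable on balls and
`∫ u ∂ᵢψ = - ∫ Gᵢ ψ` for all test functions `ψ` and all `i`. -/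
structure WeakGrad {d : ℕ} (u : E d → ℝ) (G : E d → E d) : Prop where
  loc : LocSq u
  locG : LocSq' G
  ibp : ∀ ψ : E d → ℝ, Test ψ → ∀ i : Fin d, Int (fun x => u x * grad ψ x i) = - Int (fun x => G x i * ψ x)

/-- `u` is a weak solution in `H¹_loc(ℝ^d)` of `div (A ∇u) + W u = 0`. -/
def WeakSol {d : ℕ} (A : E d → Op d) (W : E d → ℝ) (u : E d → ℝ) : Prop :=
  ∃ G : E d → E d, WeakGrad u G ∧ ∀ ψ : E d → ℝ, Test ψ →
    Int (fun x => ip (ap (A x) (G x)) (grad ψ x)) = Int (fun x => W x * u x * ψ x)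

end Pool.Agent.Helper77.SDS
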