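import Pool.Agent.Helper77.SD.Fin3
import Pool.Agent.Helper77.SD.All
import Pool.Agent.Helper77.SD.Short

/-! # Project SD: the final theorem in terms of the definitions of `Short.lean` -/

set_option autoImplicit false

namespace Pool.Agent.Helper77.SDS

open MeasureTheory Metric Set
open scoped Gradient RealInnerProductSpace ENNReal

theorem tr_eq {d : ℕ} (T : Op d) (v : E d) : tr T v = ContinuousLinearMap.adjoint T v := by
  ext i
  have h1 : (ContinuousLinearMap.adjoint T v) i = ⟪EuclideanSpace.single i (1 : ℝ), ContinuousLinearMap.adjoint T v⟫ := by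
    simp [EuclideanSpace.inner_single_left]
  rw [h1, ContinuousLinearMap.adjoint_inner_right]
  rfl

theorem push_eq {d : ℕ} (Φ : E d → E d) (B : E d → Op d) (c : E d → ℝ) (x v : E d) :
    push Φ B c x v = SD.pushB Φ (fun x => c x • B x) x v := by
  unfold push jac D SD.pushB
  rw [tr_eq]
  ext i
  simp only [ap, _root_.smul_apply, ContinuousLinearMap.comp_apply, map_smul, PiLp.smul_apply, smul_eq_mul]
  ring

theorem final_short (d : ℕ) (l l' η : E d) (B : E d → Op d) (c : E d → ℝ) (Φ Ψ : E d → E d) (M : ℝ)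
    (hB : ParallelMetric l η B) (hc : ConfFactor l B c) (hΦ : ChangeOfVar Φ Ψ l l') :
    ∃ δ C : ℝ, 0 < δ ∧ 0 < C ∧ ∀ (A : E d → Op d) (W : E d → ℝ), NearPush l' Φ B c δ M A W →
      ∀ u : E d → ℝ, WeakSol A W u → SqInt (fun y => Real.exp (C * |ip η (Ψ y)|) * u y) → AEZero u := by
  obtain ⟨Λ, hΛ⟩ := hB.cont.2
  obtain ⟨lam, hlam, hell⟩ := hB.ell
  obtain ⟨c₀, h0, hlo⟩ := hc.lo
  obtain ⟨c₁, hhi⟩ := hc.hi
  obtain ⟨P, hP⟩ := hc.bdd
  obtain ⟨k1, hk1⟩ := hΦ.bdd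
  obtain ⟨k2, hk2⟩ := hΦ.bdd'
  have hlg : ∀ x, ‖(c x)⁻¹ • ∇ c x‖ ≤ c₀⁻¹ * P := fun x => by
    rw [norm_smul, norm_inv, Real.norm_eq_abs, abs_of_pos (lt_of_lt_of_le h0 (hlo x))]
    exact mul_le_mul (inv_anti₀ h0 (hlo x)) (hP x) (norm_nonneg _) (inv_nonneg.2 h0.le)
  obtain ⟨δ, C, hδ, hC, h⟩ := SD.final SD.hF1' d l l' η B c Φ Ψ lam Λ c₀ c₁ (c₀⁻¹ * P) (max k1 k2) M hB.ne hlam h0 hB.cont.1 hΛ
    hB.symm hell hB.inv hB.par hc.smooth hlo hhi hc.per hlg hc.unif hΦ.left hΦ.right hΦ.smooth hΦ.smooth'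
    (fun x => (hk1 x).trans (le_max_left _ _)) (fun y => (hk2 y).trans (le_max_right _ _)) hΦ.per
  refine ⟨δ, C, hδ, hC, fun A W hn u hu hd => h A W hn.measA hn.measW hn.perA hn.perW (fun x => ?_) hn.bddW u ?_ hd⟩
  · refine ContinuousLinearMap.opNorm_le_bound _ hδ.le fun v => ?_
    have := hn.close x v
    rw [push_eq] at this
    exact this
  · obtain ⟨G, hG, hs⟩ := hu
    exact ⟨G, ⟨hG.loc, hG.locG, fun ψ h1 h2 i => hG.ibp ψ ⟨h1, h2⟩ i⟩, fun ψ h1 h2 => hs ψ ⟨h1, h2⟩⟩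

end Pool.Agent.Helper77.SDS
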