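import Pool.Agent.Helper77.SD.St

set_option autoImplicit false

namespace Pool.Agent.Helper77.SD

open MeasureTheory Metric Set
open scoped Gradient RealInnerProductSpace ENNReal

theorem hEXP' : StEXP := by
  intro d
  have h1 : Integrable (fun x : E d => (1 + ‖x‖) ^ (-(d + 1 : ℝ))) volume :=
    integrable_one_add_norm (by simp)
  refine Integrable.mono' (h1.const_mul (((d + 1 : ℕ) : ℝ) ^ (d + 1)))
    (by fun_prop : Continuous fun x : E d => Real.exp (-‖x‖)).aestronglyMeasurable (Filter.Eventually.of_forall fun x => ?_)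
  obtain ⟨r, hr⟩ : ∃ r, r = ‖x‖ := ⟨_, rfl⟩
  have hr0 : 0 ≤ r := hr ▸ norm_nonneg _
  rw [← hr, Real.norm_eq_abs, Real.abs_exp]
  have hn : (1 : ℝ) ≤ ((d + 1 : ℕ) : ℝ) := by push_cast; linarith [(Nat.cast_nonneg d : (0 : ℝ) ≤ d)]
  have h2 : (1 + r / ((d + 1 : ℕ) : ℝ)) ^ (d + 1) ≤ Real.exp r := by
    have h3 : 1 + r / ((d + 1 : ℕ) : ℝ) ≤ Real.exp (r / ((d + 1 : ℕ) : ℝ)) := by
      rw [add_comm]; exact Real.add_one_le_exp _
    calc (1 + r / ((d + 1 : ℕ) : ℝ)) ^ (d + 1) ≤ (Real.exp (r / ((d + 1 : ℕ) : ℝ))) ^ (d + 1) :=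
          pow_le_pow_left₀ (by positivity) h3 _
      _ = Real.exp r := by rw [← Real.exp_nat_mul]; congr 1; field_simp
  have h4 : (1 + r) ^ (d + 1) ≤ ((d + 1 : ℕ) : ℝ) ^ (d + 1) * Real.exp r := by
    calc (1 + r) ^ (d + 1) ≤ (((d + 1 : ℕ) : ℝ) * (1 + r / ((d + 1 : ℕ) : ℝ))) ^ (d + 1) := by
          apply pow_le_pow_left₀ (by positivity)
          rw [mul_add, mul_one, mul_div_cancel₀ _ (by positivity)]
          linarith
      _ = ((d + 1 : ℕ) : ℝ) ^ (d + 1) * (1 + r / ((d + 1 : ℕ) : ℝ)) ^ (d + 1) := by rw [mul_pow]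
      _ ≤ _ := mul_le_mul_of_nonneg_left h2 (by positivity)
  have h5 : (1 + r) ^ (-(d + 1 : ℝ)) = ((1 + r) ^ (d + 1))⁻¹ := by
    rw [Real.rpow_neg (by positivity)]
    congr 1
    rw [← Real.rpow_natCast]; push_cast; rfl
  rw [h5, Real.exp_neg, ← div_eq_mul_inv, le_div_iff₀ (by positivity), inv_mul_le_iff₀ (Real.exp_pos _)]
  rw [mul_comm] at h4
  exact h4

theorem hGAM' : StGAM := by
  intro γ C hγ
  refine ⟨Real.exp (|C| * |C| ^ (1 / (γ - 1))), Real.exp_pos _, fun r hr => ?_⟩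
  rw [← Real.exp_add]
  apply Real.exp_le_exp.2
  have hR : 0 ≤ |C| ^ (1 / (γ - 1)) := Real.rpow_nonneg (abs_nonneg _) _
  have hCr : C * r ≤ |C| * r := mul_le_mul_of_nonneg_right (le_abs_self _) hr
  by_cases h : |C| ^ (1 / (γ - 1)) ≤ r
  · have h1 : |C| ≤ r ^ (γ - 1) := by
      have h2 := Real.rpow_le_rpow hR h (by linarith : 0 ≤ γ - 1)
      rw [← Real.rpow_mul (abs_nonneg _), one_div, inv_mul_cancel₀ (by linarith), Real.rpow_one] at h2
      exact h2
    have h3 : |C| * r ≤ r ^ γ := by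
      rcases eq_or_lt_of_le hr with h0 | h0
      · rw [← h0, mul_zero]; exact Real.rpow_nonneg le_rfl _
      · have : r ^ γ = r ^ (γ - 1) * r := by
          rw [← Real.rpow_add_one h0.ne']; congr 1; ring
        rw [this]; exact mul_le_mul_of_nonneg_right h1 hr
    have h4 : 0 ≤ |C| * |C| ^ (1 / (γ - 1)) := mul_nonneg (abs_nonneg _) hR
    linarith
  · push Not at h
    have h1 : 0 ≤ r ^ γ := Real.rpow_nonneg hr _
    have h2 : |C| * r ≤ |C| * |C| ^ (1 / (γ - 1)) := mul_le_mul_of_nonneg_left h.le (abs_nonneg _)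
    linarith

end Pool.Agent.Helper77.SD
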