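import Pool.Agent.Helper77.SD.Basic

/-!
# Project SD (MP_93a5ff_an): statements of the modules, with proofs in words

THEOREM. Let `B` be symmetric, elliptic, continuous, invariant along the vector `l`, `B η = l` constant, `c > 0` of class
`C¹` and `l`-periodic. Then for every `M` there are `δ > 0`, `C` such that for all measurable `l`-periodic `A`, `V` with
`|A - c B| ≤ δ`, `|V| ≤ M`: a weak solution of `div (A ∇u) + V u = 0` with `e^{C|⟨η,x⟩|} u ∈ L²` vanishes.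

IDEA. `f = √c e^{τ⟨η,x⟩} u` solves (with `F = ∇f`, `p = ∇ log c`)
`∫⟨B F, Γ⟩ + 2τ ∫ ⟨F,l⟩ g - τ²⟨l,η⟩ ∫ f g = small` for all `(g, Γ)` in `H¹`. Take `g = f(x+tl) - f(x-tl)`:
the first and the third term vanish by symmetry, the second one is `-4τ C'(t)`, `C(t) = ∫ f f(·+tl)`.
Hence `‖f(·+l) - f‖ ≤ ‖f‖/5`; the same for all combinations of the translates `f(·+jl)`; then an abstract lemma
on isometries gives `f = 0` because `⟨f, f(·+jl)⟩` decays exponentially.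
-/

set_option autoImplicit false

namespace Pool.Agent.Helper77.SD

open MeasureTheory Metric Set
open scoped Gradient RealInnerProductSpace ENNReal

/-- the logarithmic gradient of `c` -/
noncomputable def lg {d : ℕ} (c : E d → ℝ) (x : E d) : E d := (c x)⁻¹ • ∇ c x

/-- `f = √c e^{τ⟨η,x⟩} u` -/
noncomputable def tf {d : ℕ} (c : E d → ℝ) (τ : ℝ) (η : E d) (u : E d → ℝ) (x : E d) : ℝ := wt c τ η x * u x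

/-- its gradient `F = √c e^{τ⟨η,x⟩} (G + u (τ η + ∇ log c / 2))` -/
noncomputable def tF {d : ℕ} (c : E d → ℝ) (τ : ℝ) (η : E d) (u : E d → ℝ) (G : E d → E d) (x : E d) : E d :=
  wt c τ η x • (G x + u x • (τ • η + (1 / 2 : ℝ) • lg c x))

/-- `LIN` (about 40 lines).
PROOF. For `ε > 0` take `w` from `InH1.app`. Then `∫⟨a,Γ⟩ + ∫ b g = ∫⟨a, Γ - ∇w⟩ + ∫ b (g - w)` and by Cauchy–Schwarz
(`abs_integral_inner_le`, `abs_integral_mul_le`) the absolute value is `≤ (nrm a + nrm b) ε`. -/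
def StLIN : Prop := ∀ (d : ℕ) (a : E d → E d) (b : E d → ℝ), L2 a → L2 b →
  (∀ w : E d → ℝ, ContDiff ℝ 1 w → HasCompactSupport w → (∫ x, ⟪a x, ∇ w x⟫) + ∫ x, b x * w x = 0) →
  ∀ (g : E d → ℝ) (Γ : E d → E d), InH1 g Γ → (∫ x, ⟪a x, Γ x⟫) + ∫ x, b x * g x = 0

/-- `DIV` (about 60 lines): the divergence theorem for `w₁ w₂ W`.
PROOF. In coordinates the left side is `∑ᵢ ∫ Wᵢ (w₂ ∂ᵢw₁ + w₁ ∂ᵢw₂)`. By `integral_mul_fderiv_eq_neg_fderiv_mul_of_integrable`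
(with `f = w₁ Wᵢ`, `g = w₂`, direction `eᵢ`; everything is continuous with compact support)
`∫ w₁ Wᵢ ∂ᵢw₂ = - ∫ (∂ᵢw₁ Wᵢ + w₁ ∂ᵢWᵢ) w₂`. -/
def StDIV : Prop := ∀ (d : ℕ) (W : E d → E d) (w₁ w₂ : E d → ℝ), ContDiff ℝ 1 W → ContDiff ℝ 1 w₁ → ContDiff ℝ 1 w₂ →
  HasCompactSupport w₁ → HasCompactSupport w₂ →
  ∫ x, ⟪W x, w₂ x • ∇ w₁ x + w₁ x • ∇ w₂ x⟫ = - ∫ x, dv W x * (w₁ x * w₂ x)

/-- `DIVH` (about 80 lines), assumes `LIN` and `DIV`.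
PROOF. Fix `w₁ ∈ C¹_c`. The functional `(g, Γ) ↦ ∫ ⟨w₁ W, Γ⟩ + ∫ (⟨W, ∇w₁⟩ + dv W w₁) g` vanishes on `(w₂, ∇w₂)` by `DIV`,
hence on all `InH1 g Γ` by `LIN` (`a = w₁ • W`, `b = ⟨W,∇w₁⟩ + dv W * w₁`, both continuous with compact support).
Now fix `(g, Γ)` and apply `LIN` with `a = g • W`, `b = ⟨W, Γ⟩ + dv W * g` (square integrable, since `W` and `dv W` are
bounded and continuous) to `(f, F)`. -/
def StDIVH : Prop := ∀ (d : ℕ) (W : E d → E d) (K K' : ℝ), ContDiff ℝ 1 W → (∀ x, ‖W x‖ ≤ K') → (∀ x, |dv W x| ≤ K) →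
  ∀ (f g : E d → ℝ) (F Γ : E d → E d), InH1 f F → InH1 g Γ →
  ∫ x, ⟪W x, g x • F x + f x • Γ x⟫ = - ∫ x, dv W x * (f x * g x)

/-- `SHC` (about 100 lines): the shift inequality for `w ∈ C¹_c`.
PROOF. `D(t) = ∫ w(x) w(x+tl) dx`. Differentiation under the integral sign (compact support, all derivatives bounded):
`D'(t) = ∫ w(x) ⟨∇w(x+tl), l⟩ dx = ∫ w(x-tl) ⟨∇w(x), l⟩ dx` (translation invariance). Also `D(-t) = D(t)`, so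
`D'(-t) = -D'(t)`, i.e. `∫ w(x+tl) ⟨∇w(x),l⟩ dx = - D'(t)`. Hence the hypothesis reads `-2 D'(t) ≤ S` on `[0,1]`, and the mean
value inequality gives `2 D(0) - 2 D(1) ≤ S`. Finally `∫ (w(x+l)-w(x))² = 2 D(0) - 2 D(1)`. -/
def StSHC : Prop := ∀ (d : ℕ) (l : E d) (S : ℝ) (w : E d → ℝ), ContDiff ℝ 1 w → HasCompactSupport w →
  (∀ t ∈ Icc (0 : ℝ) 1, ∫ x, ⟪∇ w x, l⟫ * (w (x + t • l) - w (x - t • l)) ≤ S) →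
  nrm (fun x => w (x + l) - w x) ^ 2 ≤ S

/-- `SH` (about 80 lines), assumes `SHC`.
PROOF. Let `ε ∈ (0,1)`, `w` from `InH1.app`. For `t ∈ [0,1]`, with `D_t g = g(·+tl) - g(·-tl)`, `nrm (D_t g) ≤ 2 nrm g`:
`∫⟨∇w,l⟩ D_t w = ∫⟨F,l⟩ D_t f + ∫⟨∇w-F,l⟩ D_t w + ∫⟨F,l⟩ D_t(w-f) ≤ S + 2‖l‖ ε (nrm f + 1) + 2‖l‖ (nrm F) ε =: S_ε`.
By `SHC` `nrm(w(·+l)-w)² ≤ S_ε`, and `nrm(f(·+l)-f) ≤ nrm(w(·+l)-w) + 2ε ≤ √S_ε + 2ε`. Let `ε → 0`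
(note `S ≥ 0` follows too, e.g. because `0 ≤ S_ε` for all `ε`). -/
def StSH : Prop := ∀ (d : ℕ) (l : E d) (S : ℝ) (f : E d → ℝ) (F : E d → E d), InH1 f F →
  (∀ t ∈ Icc (0 : ℝ) 1, ∫ x, ⟪F x, l⟫ * (f (x + t • l) - f (x - t • l)) ≤ S) →
  nrm (fun x => f (x + l) - f x) ^ 2 ≤ S

/-- `HT` (about 70 lines): `H¹` is closed under linear combinations and translations.
PROOF. Approximate by `a w₁ + b w₂` and `w(·+v)`. (Gradients: `∇(a w₁ + b w₂) = a ∇w₁ + b ∇w₂`,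
`∇(w(·+v)) = (∇w)(·+v)`.) -/
def StHT : Prop := ∀ (d : ℕ) (f g : E d → ℝ) (F Γ : E d → E d), InH1 f F → InH1 g Γ →
  (∀ a b : ℝ, InH1 (fun x => a * f x + b * g x) (fun x => a • F x + b • Γ x)) ∧
  (∀ v : E d, InH1 (fun x => f (x + v)) (fun x => F (x + v)))

/-- `TID` (about 120 lines), assumes `LIN`: the equation for `f = tf`, `F = tF`.
PROOF. Let `p = lg c`, `α = τη + p/2`, `β = τη - p/2`. Let `w ∈ C¹_c` and `ψ = wt · c⁻¹ · w` (`C¹`, compact support; `c > 0`).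
`∇ wt = wt • α` (since `∇√c = √c p/2`), `∇(c⁻¹) = - c⁻¹ p`, so `∇ψ = wt c⁻¹ • (∇w + w β)`.
Also `wt • G = F - f α`. Hence `⟨A G, ∇ψ⟩ = ⟨c⁻¹ A(F - fα), ∇w⟩ + ⟨c⁻¹ A (F - fα), β⟩ w` and `V u ψ = c⁻¹ V f w`.
So `Sol.eq` is the hypothesis of `LIN` with `a = c⁻¹ A (F - fα)`, `b = ⟨a, β⟩ - c⁻¹ V f`; both are in `L²` because
`c⁻¹ ≤ 1/c0`, `‖A‖ ≤ c1 Λ + δ`, `|V| ≤ M`, `α`, `β` bounded. -/
def StTID : Prop := ∀ (d : ℕ) (l η : E d) (B : E d → E d →L[ℝ] E d) (c : E d → ℝ) (lam Λ c0 c1 P δ M τ : ℝ)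
  (A : E d → E d →L[ℝ] E d) (V : E d → ℝ) (u : E d → ℝ) (G : E d → E d),
  Met l η B c lam Λ c0 c1 P → Coef l B c δ M A V → Sol A V u G → InH1 (tf c τ η u) (tF c τ η u G) →
  ∀ (g : E d → ℝ) (Γ : E d → E d), InH1 g Γ →
  ∫ x, (c x)⁻¹ * ⟪A x (tF c τ η u G x - tf c τ η u x • (τ • η + (1 / 2 : ℝ) • lg c x)),
      Γ x + g x • (τ • η - (1 / 2 : ℝ) • lg c x)⟫ =
    ∫ x, (c x)⁻¹ * (V x * (tf c τ η u x * g x))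

/-- `EST` (about 150 lines), assumes `TID` and `DIVH`.
PROOF. Write `f, F` for `tf, tF`, `p = lg c`, `s = ⟨l,η⟩`, `c⁻¹ A = B + D`, `‖D‖ ≤ δ/c0`, `Y = τ‖η‖ + P`. By `TID`
`∫⟨B(F - fα), Γ + gβ⟩ = ∫ c⁻¹ V f g - ∫⟨D(F - fα), Γ + gβ⟩`. Expand the left side pointwise, using `⟨Bx,y⟩ = ⟨x,By⟩`, `Bη = l`:
`⟨BF,Γ⟩ + g⟨F, Bβ⟩ - f⟨Bα,Γ⟩ - fg⟨Bα,β⟩ = ⟨BF,Γ⟩ + τ(g⟨F,l⟩ - f⟨l,Γ⟩) - ½⟨Bp, gF + fΓ⟩ - τ² s fg + ¼⟨Bp,p⟩ fg`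
(`⟨Bα,β⟩ = τ²s - ¼⟨Bp,p⟩`, the mixed terms cancel). By `DIVH` with the constant field `l`: `∫ ⟨l, gF + fΓ⟩ = 0`, so the second term
integrates to `2τ ∫ ⟨F,l⟩ g`. By `DIVH` with `W`: `∫⟨Bp, gF+fΓ⟩ = ∫⟨Bp - W, gF + fΓ⟩ - ∫ dv W f g`, of absolute value
`≤ ε(nrm F nrm g + nrm f nrm Γ) + K nrm f nrm g`. The remaining terms are bounded by Cauchy–Schwarz:
`|∫ ¼⟨Bp,p⟩fg| ≤ ΛP²/4 nrm f nrm g`, `|∫ c⁻¹Vfg| ≤ M/c0 nrm f nrm g`, and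
`|∫⟨D(F-fα), Γ+gβ⟩| ≤ δ/c0 (nrm F + Y nrm f)(nrm Γ + Y nrm g)` (`‖α‖, ‖β‖ ≤ Y`). `W` is bounded because `‖Bp‖ ≤ ΛP`. -/
def StEST : Prop := ∀ (d : ℕ) (l η : E d) (B : E d → E d →L[ℝ] E d) (c : E d → ℝ) (lam Λ c0 c1 P δ M τ : ℝ)
  (A : E d → E d →L[ℝ] E d) (V : E d → ℝ) (u : E d → ℝ) (G : E d → E d) (W : E d → E d) (ε K : ℝ),
  Met l η B c lam Λ c0 c1 P → Coef l B c δ M A V → Sol A V u G → InH1 (tf c τ η u) (tF c τ η u G) → 0 ≤ τ →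
  ContDiff ℝ 1 W → (∀ x, ‖B x (lg c x) - W x‖ ≤ ε) → (∀ x, |dv W x| ≤ K) →
  ∀ (g : E d → ℝ) (Γ : E d → E d), InH1 g Γ →
  |(∫ x, ⟪B x (tF c τ η u G x), Γ x⟫) + 2 * τ * (∫ x, ⟪tF c τ η u G x, l⟫ * g x) -
      τ ^ 2 * ⟪l, η⟫ * (∫ x, tf c τ η u x * g x)| ≤
    ε / 2 * (nrm (tF c τ η u G) * nrm g + nrm (tf c τ η u) * nrm Γ) +
    (K / 2 + Λ * P ^ 2 / 4 + M / c0) * (nrm (tf c τ η u) * nrm g) +
    δ / c0 * ((nrm (tF c τ η u G) + (τ * ‖η‖ + P) * nrm (tf c τ η u)) * (nrm Γ + (τ * ‖η‖ + P) * nrm g))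

/-- `KEY` (about 120 lines), assumes `EST`, `SH`, `HT`, `DIVH`.
PROOF. Energy inequality: `EST` with `g = f`, `Γ = F`; `∫⟨F,l⟩ f = 0` by `DIVH` with the constant field `l`; `⟨BF,F⟩ ≥ lam ‖F‖²`.
Shift inequality: `EST` with `g = f(·+tl) - f(·-tl)`, `Γ = F(·+tl) - F(·-tl)` (`HT`), `t ∈ [0,1]`. Here
`∫⟨B(x)F(x), F(x+tl)⟩dx = ∫⟨B(x)F(x-tl), F(x)⟩dx = ∫⟨B(x) F(x), F(x-tl)⟩dx` (substitution, invariance and symmetry of `B`), so the first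
term vanishes, in the same way `∫ f g = 0`. `nrm g ≤ 2 nrm f`, `nrm Γ ≤ 2 nrm F`. So
`2τ ∫⟨F,l⟩ g ≤ 2 (ε nrm F nrm f + K₂ nrm f² + δ/c0 (nrm F + Y nrm f)²)`; apply `SH` with
`S = (ε nrm F nrm f + K₂ nrm f² + δ/c0 (nrm F + Y nrm f)²)/τ`. -/
def StKEY : Prop := ∀ (d : ℕ) (l η : E d) (B : E d → E d →L[ℝ] E d) (c : E d → ℝ) (lam Λ c0 c1 P δ M τ : ℝ)
  (A : E d → E d →L[ℝ] E d) (V : E d → ℝ) (u : E d → ℝ) (G : E d → E d) (W : E d → E d) (ε K : ℝ),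
  Met l η B c lam Λ c0 c1 P → Coef l B c δ M A V → Sol A V u G → InH1 (tf c τ η u) (tF c τ η u G) → 0 < τ →
  ContDiff ℝ 1 W → (∀ x, ‖B x (lg c x) - W x‖ ≤ ε) → (∀ x, |dv W x| ≤ K) →
  ∀ X N K₂ Y : ℝ, X = nrm (tF c τ η u G) → N = nrm (tf c τ η u) → K₂ = K / 2 + Λ * P ^ 2 / 4 + M / c0 → Y = τ * ‖η‖ + P →
  lam * X ^ 2 ≤ τ ^ 2 * ⟪l, η⟫ * N ^ 2 + ε * X * N + K₂ * N ^ 2 + δ / c0 * (X + Y * N) ^ 2 ∧
  τ * nrm (fun x => tf c τ η u (x + l) - tf c τ η u x) ^ 2 ≤ ε * X * N + K₂ * N ^ 2 + δ / c0 * (X + Y * N) ^ 2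

/-- `NUM` (about 60 lines): choice of the parameters (real numbers only).
PROOF. Put `C₁ = √(2/lam (s + 2 + 1/lam))`. `ε = min 1 (1/(75 (C₁+1)))`, `τ = max 1 (max P (75 K₂))` with `K₂ = k ε ≥ 0`,
`δ = min (lam/8) (min (1/(2(h+1)²)) (1/(75 τ (C₁+h+1)²)))`. From the first inequality, `ε X N ≤ (lam/4) X² + (1/lam) N²`,
`δ (X+YN)² ≤ 2δX² + 2δY²N² ≤ (lam/4) X² + τ² N²` (as `Y = τh + P ≤ τ(h+1)`), `K₂ ≤ τ²`, so `(lam/2) X² ≤ (s + 2 + 1/lam) τ² N²`,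
`X ≤ C₁ τ N`. Then the right side of the second inequality is `≤ (ε C₁ + K₂/τ + δ τ (C₁+h+1)²) τ N² ≤ (3/75) τ N²`. -/
def StNUM : Prop := ∀ (lam s h P : ℝ) (k : ℝ → ℝ), 0 < lam → 0 < s → 0 ≤ h → 0 ≤ P → (∀ ε, 0 ≤ k ε) →
  ∃ ε τ δ : ℝ, 0 < ε ∧ 1 ≤ τ ∧ 0 < δ ∧ δ ≤ lam / 8 ∧ ∀ X N Q Y : ℝ, 0 ≤ X → 0 ≤ N → Y = τ * h + P →
    lam * X ^ 2 ≤ τ ^ 2 * s * N ^ 2 + ε * X * N + k ε * N ^ 2 + δ * (X + Y * N) ^ 2 →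
    τ * Q ^ 2 ≤ ε * X * N + k ε * N ^ 2 + δ * (X + Y * N) ^ 2 → 25 * Q ^ 2 ≤ N ^ 2

/-- `CAC` (about 150 lines): local Caccioppoli inequality.
PROOF. `supp χ ⊆ ball 0 R`. For `n ≥ 1` take `v` from `Sol.app R (1/n)` and test with `ψ = χ² v`:
`∫⟨AG, χ²∇v + 2χ v ∇χ⟩ = ∫ V u χ² v`. Since `χ` vanishes outside `ball 0 R`, as `n → ∞` (Cauchy–Schwarz on `ball 0 R`; `χ, ∇χ, A, V`
bounded) we get `∫⟨AG, χ²G + 2χ u ∇χ⟩ = ∫ V χ² u²`. So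
`a ∫χ²‖G‖² ≤ ∫ χ²⟨AG,G⟩ ≤ 2Λ' ∫ |χ| |u| ‖G‖ ‖∇χ‖ + M∫χ²u² ≤ (a/2)∫χ²‖G‖² + (2Λ'²/a)∫u²‖∇χ‖² + M∫χ²u²`. -/
def StCAC : Prop := ∀ (d : ℕ) (A : E d → E d →L[ℝ] E d) (V : E d → ℝ) (u : E d → ℝ) (G : E d → E d) (a Λ' M : ℝ),
  0 < a → Measurable A → Measurable V → (∀ x y, a * ‖y‖ ^ 2 ≤ ⟪A x y, y⟫) → (∀ x, ‖A x‖ ≤ Λ') → (∀ x, |V x| ≤ M) →
  Sol A V u G → ∀ χ : E d → ℝ, ContDiff ℝ 1 χ → HasCompactSupport χ →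
  a / 2 * ∫ x, χ x ^ 2 * ‖G x‖ ^ 2 ≤ ∫ x, (2 * Λ' ^ 2 / a * ‖∇ χ x‖ ^ 2 + M * χ x ^ 2) * u x ^ 2

/-- `CUT` (about 40 lines): cut-off functions.
PROOF. Let `φ` be a smooth bump function on `E d` with `φ = 1` on `closedBall 0 1`, support in `closedBall 0 2`, values in `[0,1]`
(`ContDiffBump`), `K = sup ‖∇φ‖`; `ζ x = φ (R⁻¹ • x)`. -/
def StCUT : Prop := ∀ d : ℕ, ∃ K : ℝ, 0 < K ∧ ∀ R : ℝ, 1 ≤ R → ∃ ζ : E d → ℝ, ContDiff ℝ (⊤ : ℕ∞) ζ ∧ HasCompactSupport ζ ∧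
  (∀ x, 0 ≤ ζ x ∧ ζ x ≤ 1) ∧ (∀ x, ‖x‖ ≤ R → ζ x = 1) ∧ (∀ x, 2 * R ≤ ‖x‖ → ζ x = 0) ∧ ∀ x, ‖∇ ζ x‖ ≤ K / R

/-- `MEM1` (about 100 lines), assumes `CAC`, `CUT`: `wt • G ∈ L²`.
PROOF. `⟨A y, y⟩ ≥ (c0 lam - δ)‖y‖² ≥ (c0 lam/2)‖y‖²`, `‖A‖ ≤ c1 Λ + δ`. Apply `CAC` with `χ = ζ_R e^{τ⟨η,x⟩}`, `‖∇χ‖ ≤ (K + τ‖η‖) e^{τ⟨η,x⟩}`:
`∫ ζ_R² e^{2τ⟨η,x⟩}‖G‖² ≤ K' ∫ e^{2τ⟨η,x⟩} u² < ∞` with `K'` independent of `R ≥ 1` (`e^{τ⟨η,x⟩} ≤ e^{(τ+κ)|⟨η,x⟩|}`).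
Monotone convergence (or Fatou, `R = n → ∞`) gives `e^{τ⟨η,x⟩} G ∈ L²`; `wt ≤ √c1 e^{τ⟨η,x⟩}`. (Measurability of `G`: from `Sol.locG`.) -/
def StMEM1 : Prop := ∀ (d : ℕ) (l η : E d) (B : E d → E d →L[ℝ] E d) (c : E d → ℝ) (lam Λ c0 c1 P δ M τ κ : ℝ)
  (A : E d → E d →L[ℝ] E d) (V : E d → ℝ) (u : E d → ℝ) (G : E d → E d),
  Met l η B c lam Λ c0 c1 P → Coef l B c δ M A V → δ ≤ c0 * lam / 2 → 0 ≤ τ → 0 ≤ κ → Sol A V u G →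
  L2 (fun x => Real.exp ((τ + κ) * |⟪η, x⟫|) * u x) →
  L2 (tf c τ η u) ∧ L2 (fun x => wt c τ η x • G x)

/-- `MEM` (about 120 lines), assumes `MEM1`, `CUT`: `(tf, tF)` is in `H¹`.
PROOF. `f = tf ∈ L²`, `F = tF = wt•G + f•α ∈ L²` (`α = τη + p/2` bounded). Given `ε`, choose `R` with
`‖(1-ζ_R) f‖, ‖(1-ζ_R)F‖, (K/R) nrm f` small (dominated convergence), then `v ∈ C¹` from `Sol.app (2R) ε'`,
`w = ζ_R wt v ∈ C¹_c`. `w - f = ζ_R wt (v-u) - (1-ζ_R) f`,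
`∇w - F = ζ_R wt (∇v - G) + ζ_R wt (v-u) α + wt (v-u) ∇ζ_R + f ∇ζ_R - (1-ζ_R) F`; all functions with `v - u`, `∇v - G` are supported
in `ball 0 (2R)` where `wt` is bounded. -/
def StMEM : Prop := ∀ (d : ℕ) (l η : E d) (B : E d → E d →L[ℝ] E d) (c : E d → ℝ) (lam Λ c0 c1 P δ M τ κ : ℝ)
  (A : E d → E d →L[ℝ] E d) (V : E d → ℝ) (u : E d → ℝ) (G : E d → E d),
  Met l η B c lam Λ c0 c1 P → Coef l B c δ M A V → δ ≤ c0 * lam / 2 → 0 ≤ τ → 0 ≤ κ → Sol A V u G →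
  L2 (fun x => Real.exp ((τ + κ) * |⟪η, x⟫|) * u x) →
  InH1 (tf c τ η u) (tF c τ η u G)

/-- `SOL` (about 120 lines): solutions form a vector space invariant under translation by `l`.
PROOF. Linear combinations: approximate by `a v₁ + b v₂`; linearity of both sides of `eq` (integrability: `G`, `u` are square
integrable on `ball 0 R ⊇ supp ψ`, `A`, `V` measurable and bounded). Translation: `v(·+l)` on `ball 0 R` is controlled by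
`v` on `ball 0 (R+‖l‖)`; `∫⟨A(x)G(x+l), ∇ψ(x)⟩dx = ∫⟨A(x-l)G(x), ∇ψ(x-l)⟩dx = ∫⟨A(x)G(x), ∇(ψ(·-l))(x)⟩dx`. -/
def StSOL : Prop := ∀ (d : ℕ) (l : E d) (A : E d → E d →L[ℝ] E d) (V : E d → ℝ) (Λ' M : ℝ), Measurable A → Measurable V →
  (∀ x, ‖A x‖ ≤ Λ') → (∀ x, |V x| ≤ M) → (∀ x, A (x + l) = A x) → (∀ x, V (x + l) = V x) →
  ∀ (u u' : E d → ℝ) (G G' : E d → E d), Sol A V u G → Sol A V u' G' →
  (∀ a b : ℝ, Sol A V (fun x => a * u x + b * u' x) (fun x => a • G x + b • G' x)) ∧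
  Sol A V (fun x => u (x + l)) (fun x => G (x + l))

/-- `HIL` (about 100 lines): abstract lemma.
PROOF. Let `f ∈ 𝒱`, `K` from the last hypothesis, `m ≥ 1`, `N = 2m-1`, `D = 1 - T` (commutes with `T`). By the binomial formula
`f = ∑_{k≤N} C(N,k) T^k D^{N-k} f`, so `‖f‖² = ∑ C(N,k) ⟨f, T^k D^{N-k} f⟩`. If `k ≤ m-1` then `N-k ≥ m` and, since `𝒱` is invariant under `T`
and `D` and `‖D g‖ ≤ ‖g‖/5` on `𝒱`, the term is `≤ ‖f‖² 5^{-m}`. If `k ≥ m`, expand `D^{N-k} = ∑_j C(N-k,j)(-1)^j T^j`: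
`|⟨f, T^k D^{N-k} f⟩| ≤ 2^{N-k} K ρ^m` (`0 ≤ ρ ≤ 1`). Total: `‖f‖² ≤ 2^{2m-1} 5^{-m} ‖f‖² + 3^{2m-1} K ρ^m`; `4/5 < 1`, `9ρ < 1`, let `m → ∞`. -/
def StHIL : Prop := ∀ (H : Type) [NormedAddCommGroup H] [InnerProductSpace ℝ H] (T : H →ₗ[ℝ] H) (𝒱 : Submodule ℝ H) (ρ : ℝ),
  (∀ x, ‖T x‖ = ‖x‖) → (∀ x ∈ 𝒱, T x ∈ 𝒱) → (∀ x ∈ 𝒱, 25 * ‖T x - x‖ ^ 2 ≤ ‖x‖ ^ 2) → 0 ≤ ρ → 9 * ρ < 1 →
  (∀ x ∈ 𝒱, ∃ K : ℝ, ∀ j : ℕ, |⟪x, (T ^ j) x⟫| ≤ K * ρ ^ j) → ∀ x ∈ 𝒱, x = 0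

/-- `COR` (about 60 lines): correlations decay.
PROOF. `|f(x) f(x+jl)| ≤ c1 e^{-κ(|⟨η,x⟩| + |⟨η,x+jl⟩|)} |U(x)||U(x+jl)|`, `U = e^{(τ+κ)|⟨η,x⟩|} u ∈ L²`, and
`|⟨η,x⟩| + |⟨η,x+jl⟩| ≥ j⟨η,l⟩`; Cauchy–Schwarz. `K = c1 nrm(U)²`. -/
def StCOR : Prop := ∀ (d : ℕ) (l η : E d) (B : E d → E d →L[ℝ] E d) (c : E d → ℝ) (lam Λ c0 c1 P τ κ : ℝ) (u : E d → ℝ),
  Met l η B c lam Λ c0 c1 P → 0 ≤ τ → 0 ≤ κ → 0 < ⟪l, η⟫ → L2 (fun x => Real.exp ((τ + κ) * |⟪η, x⟫|) * u x) →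
  ∃ K : ℝ, ∀ j : ℕ, |∫ x, tf c τ η u x * tf c τ η u (x + (j : ℝ) • l)| ≤ K * Real.exp (-(κ * ⟪l, η⟫)) ^ j

/-- the core theorem -/
def StCORE : Prop := ∀ (d : ℕ) (l η : E d) (B : E d → E d →L[ℝ] E d) (c : E d → ℝ) (lam Λ c0 c1 P M : ℝ), l ≠ 0 → 0 ≤ M →
  Met l η B c lam Λ c0 c1 P →
  (∀ ε : ℝ, 0 < ε → ∃ (W : E d → E d) (K : ℝ), ContDiff ℝ 1 W ∧ (∀ x, ‖B x (lg c x) - W x‖ ≤ ε) ∧ ∀ x, |dv W x| ≤ K) →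
  ∃ δ C : ℝ, 0 < δ ∧ 0 < C ∧ ∀ (A : E d → E d →L[ℝ] E d) (V : E d → ℝ), Coef l B c δ M A V →
    ∀ (u : E d → ℝ) (G : E d → E d), Sol A V u G → L2 (fun x => Real.exp (C * |⟪η, x⟫|) * u x) → u =ᵐ[volume] 0

/-! ### Mollification: from `WeakSol` to `Sol` -/

/-- `MO1` (about 80 lines): mollification is a contraction of `L²`.
PROOF. `ρ = φ.normed volume ≥ 0`, `∫ρ = 1`. `(ρ⋆f)(x)² ≤ ∫ρ(y) f(x-y)² dy` (Cauchy–Schwarz with the measure `ρ dy`), integrate in `x`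
(Tonelli). Integrability of `ρ(y) f(x-y)` for a.e. `x` is part of the argument; `ρ⋆f` is continuous because `f` is locally integrable. -/
def StMO1 : Prop := ∀ (d : ℕ) (φ : ContDiffBump (0 : E d)) (f : E d → ℝ), L2 f →
  L2 (MeasureTheory.convolution (φ.normed volume) f (ContinuousLinearMap.lsmul ℝ ℝ) volume) ∧
  nrm (MeasureTheory.convolution (φ.normed volume) f (ContinuousLinearMap.lsmul ℝ ℝ) volume) ≤ nrm f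

/-- `MO2` (about 80 lines), assumes `MO1`: mollifications converge in `L²`.
PROOF. Continuous functions with compact support are dense in `L²` (`MemLp.exists_hasCompactSupport_eLpNorm_sub_le`): `nrm (f-g) ≤ ε/3`.
`nrm(ρ⋆(f-g)) ≤ ε/3` by `MO1`; `|ρ⋆g - g| ≤ ε'` everywhere for small radius (uniform continuity,
`ContDiffBump.dist_normed_convolution_le`), and `ρ⋆g - g` is supported in a fixed ball. -/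
def StMO2 : Prop := ∀ (d : ℕ) (f : E d → ℝ), L2 f → ∀ ε : ℝ, 0 < ε → ∃ r : ℝ, 0 < r ∧ ∀ φ : ContDiffBump (0 : E d), φ.rOut < r →
  nrm (fun x => MeasureTheory.convolution (φ.normed volume) f (ContinuousLinearMap.lsmul ℝ ℝ) volume x - f x) < ε

/-- `WH` (about 150 lines), assumes `MO2`, `CUT`: local approximation of `H¹_loc` functions.
PROOF. `ζ` smooth cut-off, `ζ = 1` on `ball 0 R` (take `max R 1` in `CUT`). `f = ζu ∈ L²`, `F = ζG + u∇ζ ∈ L²` (compact support). For all test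
functions `ψ`: `∫ f ∂ᵢψ = ∫ u ∂ᵢ(ζψ) - ∫ u ∂ᵢζ ψ = -∫ Fᵢ ψ` (`WeakGrad.ibp` for `ζψ`). Let `v = ρ⋆f` (`ρ = φ.normed`, small radius): `v ∈ C^∞`,
`∂ᵢv(x) = ∫ f(y) (∂ᵢρ)(x-y) dy = ∫ Fᵢ(y) ρ(x-y) dy = (ρ⋆Fᵢ)(x)` (the test function `ψ(y) = ρ(x-y)`, `∂ᵢψ(y) = -(∂ᵢρ)(x-y)`).
By `MO2` for `f` and for the `d` functions `Fᵢ`: `nrm (v-f) , nrm (∇v - F)` small; on `ball 0 R` `f = u`, `F = G`. -/
def StWH : Prop := ∀ (d : ℕ) (u : E d → ℝ) (G : E d → E d), WeakGrad u G → ∀ R ε : ℝ, 0 < ε → ∃ v : E d → ℝ, ContDiff ℝ 1 v ∧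
    ∫ x in ball (0 : E d) R, (v x - u x) ^ 2 < ε ∧ ∫ x in ball (0 : E d) R, ‖∇ v x - G x‖ ^ 2 < ε

/-- `TST` (about 100 lines): `C^∞_c` tests suffice.
PROOF. `supp ψ ⊆ ball 0 R`. `ψ_r = φ.normed ⋆ ψ` with `rOut = r < 1`: `C^∞`, support in `ball 0 (R+1)`, `∇ψ_r = φ.normed ⋆ ∇ψ`;
`ψ_r → ψ`, `∇ψ_r → ∇ψ` uniformly (`ContDiffBump.dist_normed_convolution_le` and uniform continuity). `a`, `b` are integrable on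
`ball 0 (R+1)`. Pass to the limit. -/
def StTST : Prop := ∀ (d : ℕ) (a : E d → E d) (b : E d → ℝ), (∀ R : ℝ, IntegrableOn a (ball (0 : E d) R) volume) →
  (∀ R : ℝ, IntegrableOn b (ball (0 : E d) R) volume) →
  (∀ ψ : E d → ℝ, ContDiff ℝ (⊤ : ℕ∞) ψ → HasCompactSupport ψ → ∫ x, ⟪a x, ∇ ψ x⟫ = ∫ x, b x * ψ x) →
  ∀ ψ : E d → ℝ, ContDiff ℝ 1 ψ → HasCompactSupport ψ → ∫ x, ⟪a x, ∇ ψ x⟫ = ∫ x, b x * ψ x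

/-- `APX` (about 80 lines): uniform approximation of bounded uniformly continuous fields.
PROOF. `W = φ.normed ⋆ Z` with small radius: `‖W - Z‖ ≤ ε` (`ContDiffBump.dist_normed_convolution_le`), `W ∈ C^∞`, and
`fderiv W = (fderiv φ.normed) ⋆ Z` is bounded by `sup‖Z‖ ∫ ‖fderiv φ.normed‖` (`HasCompactSupport.hasFDerivAt_convolution_left`);
`|dv W x| ≤ d ‖fderiv W x‖`. -/
def StAPX : Prop := ∀ (d : ℕ) (Z : E d → E d) (Q : ℝ), UniformContinuous Z → (∀ x, ‖Z x‖ ≤ Q) → ∀ ε : ℝ, 0 < ε →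
  ∃ (W : E d → E d) (K : ℝ), ContDiff ℝ 1 W ∧ (∀ x, ‖Z x - W x‖ ≤ ε) ∧ ∀ x, |dv W x| ≤ K

/-- the integer vector `k` -/
noncomputable def zv {d : ℕ} (k : Fin d → ℤ) : E d := WithLp.toLp 2 (fun i => (k i : ℝ))

/-- `ℤ^d`-periodic -/
def ZPer {d : ℕ} {α : Type*} (f : E d → α) : Prop := ∀ (k : Fin d → ℤ) (x : E d), f (x + zv k) = f x

/-- `PER` (about 80 lines): continuous periodic functions are bounded, uniformly continuous, and attain their minimum.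
PROOF. Every `x` is `y + zv k` with `y ∈ [0,1]^d` (`k i = ⌊x i⌋`), `‖y‖ ≤ d`. On the compact ball of radius `d + 2` the function is bounded and uniformly
continuous; if `‖x - x'‖ < 1` translate both by the same `zv k`. -/
def StPER : Prop := ∀ (d : ℕ) (F : Type) [NormedAddCommGroup F] [NormedSpace ℝ F] (f : E d → F), Continuous f → ZPer f →
  (∃ Q : ℝ, ∀ x, ‖f x‖ ≤ Q) ∧ UniformContinuous f ∧ ∃ x₀, ∀ x, ‖f x₀‖ ≤ ‖f x‖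

/-- `EXP` (about 20 lines). PROOF. `e^{-r} ≤ K (1+r)^{-(d+1)}` and `integrable_one_add_norm`. -/
def StEXP : Prop := ∀ d : ℕ, Integrable (fun x : E d => Real.exp (-‖x‖)) volume

/-- `GAM` (about 20 lines). PROOF. If `r^(γ-1) ≥ C` then `C r ≤ r^γ`; otherwise `r` is bounded, `r ≤ C^(1/(γ-1))`. -/
def StGAM : Prop := ∀ γ C : ℝ, 1 < γ → ∃ K : ℝ, 0 < K ∧ ∀ r : ℝ, 0 ≤ r → Real.exp (-(r ^ γ)) ≤ K * Real.exp (-(C * r))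

/-- `CLS` (about 100 lines), assumes `DIV`: classical solutions are weak solutions.
PROOF. `G = ∇u`. Continuous functions are square integrable on balls. `∫ u ∂ᵢψ = -∫ ∂ᵢu ψ` by
`integral_mul_fderiv_eq_neg_fderiv_mul_of_integrable`. With the `C¹` field `W = A ∇u`: `∫⟨W, ∇ψ⟩ = -∫ dv W ψ = ∫ V u ψ`
(componentwise the same Mathlib lemma). -/
def StCLS : Prop := ∀ (d : ℕ) (A : E d → E d →L[ℝ] E d) (V u : E d → ℝ), ContDiff ℝ 1 A → Continuous V → ContDiff ℝ 2 u →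
  (∀ x, dv (fun y => A y (∇ u y)) x + V x * u x = 0) → WeakSol A V u

end Pool.Agent.Helper77.SD
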