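import Pool.Agent.Helper77.SD.St

/-!
# Project SD, second layer: change of variables

`Φ` is a `C¹` diffeomorphism of `ℝ^d` with inverse `Ψ`, both with bounded derivatives and Jacobians, `Φ(x + l) = Φ(x) + l'`.
A solution `(u, G)` for `(A, V)` becomes the solution `(u∘Φ, DΦᵀ G∘Φ)` for `A' = J DΦ⁻¹ A(Φ) DΦ⁻ᵀ`, `V' = J V∘Φ`, `J = |det DΦ|`.
-/

set_option autoImplicit false

namespace Pool.Agent.Helper77.SD

open MeasureTheory Metric Set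
open scoped Gradient RealInnerProductSpace ENNReal

/-- `Φ` is a `C¹` diffeomorphism with inverse `Ψ`, both with bounded derivatives and Jacobians, and `Φ(x+l) = Φ(x)+l'` -/
structure Dif {d : ℕ} (Φ Ψ : E d → E d) (l l' : E d) (κ : ℝ) : Prop where
  left : ∀ x, Ψ (Φ x) = x
  right : ∀ y, Φ (Ψ y) = y
  smooth : ContDiff ℝ 1 Φ
  smooth' : ContDiff ℝ 1 Ψ
  bdd : ∀ x, ‖fderiv ℝ Φ x‖ ≤ κ
  bdd' : ∀ y, ‖fderiv ℝ Ψ y‖ ≤ κ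
  jac : ∀ x, |(fderiv ℝ Φ x).det| ≤ κ
  jac' : ∀ y, |(fderiv ℝ Ψ y).det| ≤ κ
  per : ∀ x, Φ (x + l) = Φ x + l'

/-- the matrix `A` in the coordinates `x = Ψ(y)`: `J DΦ⁻¹ A(Φ) DΦ⁻ᵀ` -/
noncomputable def pullA {d : ℕ} (Φ Ψ : E d → E d) (A : E d → E d →L[ℝ] E d) (x : E d) : E d →L[ℝ] E d :=
  |(fderiv ℝ Φ x).det| •
    ((fderiv ℝ Ψ (Φ x)) ∘L (A (Φ x)) ∘L (ContinuousLinearMap.adjoint (fderiv ℝ Ψ (Φ x))))

/-- the potential in the new coordinates -/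
noncomputable def pullV {d : ℕ} (Φ : E d → E d) (V : E d → ℝ) (x : E d) : ℝ := |(fderiv ℝ Φ x).det| * V (Φ x)

/-- the gradient in the new coordinates -/
noncomputable def pullG {d : ℕ} (Φ : E d → E d) (G : E d → E d) (x : E d) : E d :=
  ContinuousLinearMap.adjoint (fderiv ℝ Φ x) (G (Φ x))

/-- the push-forward of the metric `B`: the value at `Φ x` of the matrix whose pull-back is `B` -/
noncomputable def pushB {d : ℕ} (Φ : E d → E d) (B : E d → E d →L[ℝ] E d) (x : E d) : E d →L[ℝ] E d :=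
  |(fderiv ℝ Φ x).det|⁻¹ • ((fderiv ℝ Φ x) ∘L (B x) ∘L (ContinuousLinearMap.adjoint (fderiv ℝ Φ x)))

/-- `CV` (about 60 lines): change of variables for integrals and null sets.
PROOF. `integral_image_eq_integral_abs_det_fderiv_smul` (and its `lintegral` form) on `univ` (`Φ` is injective, `Φ '' univ = univ`).
`DΨ(Φx) ∘ DΦ(x) = id = DΦ(x) ∘ DΨ(Φ x)` by the chain rule, so `det DΦ(x) det DΨ(Φ x) = 1`. Null sets: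
`addHaar_image_eq_zero_of_differentiableOn_of_addHaar_eq_zero` for `Ψ` (`Φ⁻¹(s) = Ψ(s)`). The last one: with the weight `|det DΨ| ≤ κ`,
`∫ ‖g(Φ x)‖² dx = ∫ ‖g(y)‖² |det DΨ(y)| dy ≤ κ ∫ ‖g‖²`. -/
def StCV : Prop := ∀ (d : ℕ) (Φ Ψ : E d → E d) (l l' : E d) (κ : ℝ), Dif Φ Ψ l l' κ →
  (∀ g : E d → ℝ, ∫ y, g y = ∫ x, |(fderiv ℝ Φ x).det| * g (Φ x)) ∧
  (∀ x, (fderiv ℝ Ψ (Φ x)) ∘L (fderiv ℝ Φ x) = ContinuousLinearMap.id ℝ (E d)) ∧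
  (∀ x, (fderiv ℝ Φ x) ∘L (fderiv ℝ Ψ (Φ x)) = ContinuousLinearMap.id ℝ (E d)) ∧
  (Measure.QuasiMeasurePreserving Φ volume volume) ∧ (Measure.QuasiMeasurePreserving Ψ volume volume) ∧
  (∀ g : E d → ℝ, L2 g → L2 (fun x => g (Φ x))) ∧
  (∀ g : E d → E d, L2 g → L2 (fun x => g (Φ x))) ∧
  (∀ g : E d → ℝ, L2 g → ∫ x, ‖g (Φ x)‖ ^ 2 ≤ κ * ∫ y, ‖g y‖ ^ 2) ∧
  (∀ g : E d → E d, L2 g → ∫ x, ‖g (Φ x)‖ ^ 2 ≤ κ * ∫ y, ‖g y‖ ^ 2)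

/-- `DIF` (about 150 lines), assumes `CV`: transport of solutions.
PROOF. Let `R > 0`; `Φ(ball 0 R) ⊆ ball 0 R'`, `R' = ‖Φ 0‖ + κR + 1`. Apply the last four parts of `CV` to `indicator (ball 0 R') u`, etc.:
`u∘Φ`, `G∘Φ`, hence `pullG` (`‖pullG‖ ≤ κ ‖G∘Φ‖`) are square integrable on `ball 0 R`. Approximation: `v' = v∘Φ`,
`∇v'(x) = DΦ(x)ᵀ ∇v(Φ x)`, `∇v' - pullG = DΦᵀ (∇v - G)(Φ x)`. Equation: for `ψ' ∈ C¹_c` let `ψ = ψ'∘Ψ ∈ C¹_c`; by `CV`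
`∫⟨A G, ∇ψ⟩ dy = ∫ J ⟨A(Φx) G(Φx), ∇ψ(Φ x)⟩ dx`, `∇ψ(Φ x) = DΨ(Φx)ᵀ ∇ψ'(x)`, `G(Φ x) = DΨ(Φ x)ᵀ pullG(x)`, so this is
`∫ ⟨pullA pullG, ∇ψ'⟩`; in the same way the right side. -/
def StDIF : Prop := ∀ (d : ℕ) (Φ Ψ : E d → E d) (l l' : E d) (κ : ℝ), Dif Φ Ψ l l' κ →
  ∀ (A : E d → E d →L[ℝ] E d) (V : E d → ℝ) (u : E d → ℝ) (G : E d → E d), Sol A V u G →
  Sol (pullA Φ Ψ A) (pullV Φ V) (fun x => u (Φ x)) (pullG Φ G)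

/-- `COE` (about 100 lines), assumes `CV`: transport of the coefficients.
PROOF. `pullA` of the matrix `y = Φ x ↦ pushB Φ (c • B) x` at `x` is `c x • B x` (`CV`), so
`‖pullA A x - c x • B x‖ = J ‖DΨ(Φx) (A(Φx) - pushB (c B) x) DΨ(Φx)ᵀ‖ ≤ κ κ² δ`. Periodicity: `DΦ(x+l) = DΦ(x)`,
`DΨ(Φ(x+l)) = DΨ(Φ(x) + l') = DΨ(Φ(x))` because `Ψ(y + l') = Ψ(y) + l`. Measurability: everything is a composition of measurable
maps (`fderiv` of a `C¹` map is continuous; composition and adjoint are continuous). -/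
def StCOE : Prop := ∀ (d : ℕ) (Φ Ψ : E d → E d) (l l' : E d) (κ : ℝ), Dif Φ Ψ l l' κ →
  ∀ (B : E d → E d →L[ℝ] E d) (c : E d → ℝ) (δ M : ℝ) (A : E d → E d →L[ℝ] E d) (V : E d → ℝ),
  Measurable A → Measurable V → (∀ x, ‖A (Φ x) - pushB Φ (fun x => c x • B x) x‖ ≤ δ) → (∀ y, |V y| ≤ M) →
  (∀ y, A (y + l') = A y) → (∀ y, V (y + l') = V y) →
  Coef l B c (κ ^ 3 * δ) (κ * M) (pullA Φ Ψ A) (pullV Φ V)

end Pool.Agent.Helper77.SD
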